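import Pool.Agent.H26.BV.Defs

/-!
# MP_28e4c5_lc, Level D: the algebraic side

`B`-valued reals are functions `x : ℕ → B` (`x n` is the Boolean value of `n ∈ x`), `B`-valued sets of
reals are extensional functions `X : (ℕ → B) → B`.
-/

set_option autoImplicit false

namespace LD

variable {B : Type} [CompleteBooleanAlgebra B]

/-- `b` or its complement -/
def lit (b : B) (v : Bool) : B := if v then b else bᶜ

/-- Boolean value of: the finite 0-1 sequence `s` is an initial segment of `x` -/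
def bPre (x : ℕ → B) (s : List Bool) : B := ⨅ n : Fin s.length, lit (x n) (s.get n)

/-- Boolean value of `x = y` -/
def eqR (x y : ℕ → B) : B := ⨅ n, (x n ⇨ y n) ⊓ (y n ⇨ x n)

/-- the symmetric difference -/
def xorR (x y : ℕ → B) : ℕ → B := fun n => (x n ⊓ (y n)ᶜ) ⊔ ((x n)ᶜ ⊓ y n)

/-- extensional `B`-valued sets of reals -/
def ExtR (X : (ℕ → B) → B) : Prop := ∀ x y, eqR x y ⊓ X x ≤ X y

/-- Boolean value of: `X` is nowhere dense -/
def bNwd (X : (ℕ → B) → B) : B :=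
  ⨅ s : List Bool, ⨆ t : List Bool, ⨅ x, X x ⇨ (bPre x (s ++ t))ᶜ

/-- Boolean value of: `X` is meagre -/
def bMeag (X : (ℕ → B) → B) : B :=
  ⨆ φ : {φ : ℕ → (ℕ → B) → B // ∀ n, ExtR (φ n)}, (⨅ n, bNwd (φ.1 n)) ⊓ ⨅ x, X x ⇨ ⨆ n, φ.1 n x

/-- `X + A` -/
def bAdd (X A : (ℕ → B) → B) : (ℕ → B) → B := fun z => ⨆ x, X x ⊓ A (xorR x z)

/-- Boolean value of: `X` is meagre-additive -/
def bMA (X : (ℕ → B) → B) : B :=
  ⨅ A : {A : (ℕ → B) → B // ExtR A}, bMeag A.1 ⇨ bMeag (bAdd X A.1)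

/-- the functions of the ground model are unbounded -/
def UNB (B : Type) [CompleteBooleanAlgebra B] : Prop :=
  ∀ H : ℕ → ℕ → B, (∀ t, (⨆ j, H t j) = ⊤) → (∀ t i j, i ≠ j → H t i ⊓ H t j = ⊥) →
    ∃ f : ℕ → ℕ, ∀ n, (⨆ k : {k : ℕ // n ≤ k}, ⨆ j : {j : ℕ // j < f k}, H k j) = ⊤

/-- unions of meagre-additive sets indexed by the functions of the ground model are
meagre-additive -/
def ADD (B : Type) [CompleteBooleanAlgebra B] : Prop :=
  ∀ X : (ℕ → ℕ) → (ℕ → B) → B, (∀ f, ExtR (X f)) →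
    (⨅ f, bMA (X f)) ≤ bMA (fun x => ⨆ f, X f x)

end LD
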