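import Pool.Agent.H26.CM.Node
import Pool.Agent.H26.BV.Card

/-!
# UNBL: the functions of the ground model are an unbounded family

`fn f` is the name of the function `f`, `Bfn` the name of the set of all functions of the ground model.
First conjunct of `Unb`: the Boolean value of `IsFn ω f` is the top for `f = fn g`, so for all `f` with
Boolean value of `f ∈ Bfn` (`bex`/`ball`, or Los for all ultrafilters). Second: let `h = mk H` be a function,
`b` = Boolean value of `IsFn ω H`. Put `H' t j = (bmem (opr (nn t) (nn j)) H ⊓ b) ⊔ (if j = 0 then bᶜ else ⊥)`: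
apply `UNB` to `H'` to get `f`; then `b ≤` Boolean value of the statement for `fn f`.
-/

set_option autoImplicit false

namespace LD

open BV

variable {B : Type} [CompleteBooleanAlgebra B]

/-- the name of a function of the ground model -/
noncomputable def fn (B : Type) [CompleteBooleanAlgebra B] (f : ℕ → ℕ) : BSet B :=
  BSet.mk ℕ (fun n => opr (nn B n) (nn B (f n))) (fun _ => ⊤)

/-- the name of the set of all functions of the ground model -/
noncomputable def Bfn (B : Type) [CompleteBooleanAlgebra B] : BSet B :=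
  BSet.mk (ℕ → ℕ) (fun f => fn B f) (fun _ => ⊤)

theorem bmem_fn (f : ℕ → ℕ) (n k : ℕ) :
    bmem (opr (nn B n) (nn B k)) (fn B f) = if f n = k then ⊤ else ⊥ := by
  rw [fn, bmem_mk]
  simp only [top_inf_eq, beq_opr, beq_nn]
  by_cases h : f n = k
  · rw [if_pos h, eq_top_iff]
    refine le_trans ?_ (le_iSup _ n)
    rw [if_pos rfl, if_pos h.symm, top_inf_eq]
  · rw [if_neg h, eq_bot_iff]
    refine iSup_le fun m => ?_
    by_cases hm : n = m
    · subst hm
      rw [if_pos rfl, if_neg (fun h' => h h'.symm), inf_bot_eq]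
    · rw [if_neg hm, bot_inf_eq]

theorem Bfn_bex {F : BSet B → B} (hF : Ext F) :
    (⨆ z, bmem z (Bfn B) ⊓ F z) = ⨆ f : ℕ → ℕ, F (fn B f) := by
  rw [bex _ hF, Bfn]
  simp only [BSet.vl, BSet.nm, top_inf_eq]
  rfl

/-- Boolean value of `IsFn` -/
noncomputable def unbl_fn (F : BSet B) : B :=
  (⨅ n, bmem n (om B) ⇨ ⨆ k, bmem k (om B) ⊓ bmem (opr n k) F) ⊓
    ⨅ n, ⨅ k, ⨅ k', bmem n (om B) ⇨ bmem (opr n k) F ⇨ bmem (opr n k') F ⇨ beq k k'

theorem unbl_los_fn (U : UF B) (F : BSet B) :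
    unbl_fn F ∈ U ↔ IsFn (MU.E U) (MU.mk U (om B)) (MU.mk U F) := by
  unfold unbl_fn IsFn
  rw [UF.inf_mem_iff]
  refine and_congr ?_ ?_
  · refine card_iInf (P := fun U n => MU.E U n (MU.mk U (om B)) →
      ∃ k, MU.E U k (MU.mk U (om B)) ∧ App (MU.E U) (MU.mk U F) n k) (fun U n => ?_) U
    rw [UF.himp_mem_iff]
    refine imp_congr Iff.rfl ?_
    refine card_iSup (P := fun U k => MU.E U k (MU.mk U (om B)) ∧
      App (MU.E U) (MU.mk U F) (MU.mk U n) k) (fun U k => ?_) U
    rw [UF.inf_mem_iff, los_app]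
    exact Iff.rfl
  · refine card_iInf (P := fun U n => ∀ k k', MU.E U n (MU.mk U (om B)) →
      App (MU.E U) (MU.mk U F) n k → App (MU.E U) (MU.mk U F) n k' → k = k') (fun U n => ?_) U
    refine card_iInf (P := fun U k => ∀ k', MU.E U (MU.mk U n) (MU.mk U (om B)) →
      App (MU.E U) (MU.mk U F) (MU.mk U n) k → App (MU.E U) (MU.mk U F) (MU.mk U n) k' →
        k = k') (fun U k => ?_) U
    refine card_iInf (P := fun U k' => MU.E U (MU.mk U n) (MU.mk U (om B)) →
      App (MU.E U) (MU.mk U F) (MU.mk U n) (MU.mk U k) →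
        App (MU.E U) (MU.mk U F) (MU.mk U n) k' → MU.mk U k = k') (fun U k' => ?_) U
    rw [UF.himp_mem_iff, UF.himp_mem_iff, UF.himp_mem_iff, los_app, los_app, MU.mk_eq_iff]
    exact Iff.rfl

theorem unbl_ext_fn : Ext (unbl_fn (B := B)) :=
  ext_of_los (P := fun U m => IsFn (MU.E U) (MU.mk U (om B)) m) unbl_los_fn

/-- extensionality of `x ↦ ⟦⟨x, k⟩ ∈ F⟧` -/
theorem unbl_ext_app (F k : BSet B) : Ext (fun x => bmem (opr x k) F) :=
  ext_of_los (P := fun U x => App (MU.E U) (MU.mk U F) x (MU.mk U k))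
    (fun U x => los_app U F x k)

theorem unbl_mem_fn (f : ℕ → ℕ) (n : ℕ) (k : BSet B) :
    bmem (opr (nn B n) k) (fn B f) = beq k (nn B (f n)) := by
  rw [fn, bmem_mk]
  simp only [top_inf_eq, beq_opr, beq_nn]
  apply le_antisymm
  · refine iSup_le fun m => ?_
    by_cases hm : n = m
    · subst hm
      exact inf_le_right
    · rw [if_neg hm, bot_inf_eq]
      exact bot_le
  · refine le_trans ?_ (le_iSup _ n)
    rw [if_pos rfl, top_inf_eq]

theorem unbl_fn_top (f : ℕ → ℕ) : unbl_fn (fn B f) = ⊤ := by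
  unfold unbl_fn
  rw [eq_top_iff]
  refine le_inf ?_ ?_
  · rw [om_ball (f := fun n => ⨆ k, bmem k (om B) ⊓ bmem (opr n k) (fn B f))]
    · refine le_iInf fun n => ?_
      refine le_trans ?_ (le_iSup _ (nn B (f n)))
      rw [bmem_nn_om, bmem_fn, if_pos rfl, top_inf_eq]
    · exact ext_iSup fun k => ext_inf (ext_const _) (unbl_ext_app _ _)
  · have h : ∀ n : BSet B, (⨅ k, ⨅ k', bmem n (om B) ⇨ bmem (opr n k) (fn B f) ⇨
        bmem (opr n k') (fn B f) ⇨ beq k k') = bmem n (om B) ⇨ ⨅ k, ⨅ k',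
          bmem (opr n k) (fn B f) ⇨ bmem (opr n k') (fn B f) ⇨ beq k k' := by
      intro n
      rw [himp_iInf_eq]
      refine iInf_congr fun k => ?_
      rw [himp_iInf_eq]
    rw [iInf_congr h, om_ball (f := fun n => ⨅ k, ⨅ k',
      bmem (opr n k) (fn B f) ⇨ bmem (opr n k') (fn B f) ⇨ beq k k')]
    · refine le_iInf fun n => le_iInf fun k => le_iInf fun k' => ?_
      rw [unbl_mem_fn, unbl_mem_fn, le_himp_iff, le_himp_iff, top_inf_eq]
      rw [beq_symm k' (nn B (f n))]
      exact beq_trans _ _ _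
    · exact ext_iInf fun k => ext_iInf fun k' =>
        ext_himp (unbl_ext_app _ _) (ext_himp (unbl_ext_app _ _) (ext_const _))

/-- Boolean value of: `∃ k ∈ ω, x ⊆ k, H(k) < F(k)` -/
noncomputable def unbl_st (H F x : BSet B) : B :=
  ⨆ k, bmem k (om B) ⊓ (bSub x k ⊓ ⨆ a, ⨆ c, bmem (opr k a) H ⊓ (bmem (opr k c) F ⊓ bmem a c))

theorem unbl_los_st (U : UF B) (H F x : BSet B) : unbl_st H F x ∈ U ↔
    ∃ k, MU.E U k (MU.mk U (om B)) ∧ Sub (MU.E U) (MU.mk U x) k ∧
      ∃ a c, App (MU.E U) (MU.mk U H) k a ∧ App (MU.E U) (MU.mk U F) k c ∧ MU.E U a c := by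
  unfold unbl_st
  refine card_iSup (P := fun U k => MU.E U k (MU.mk U (om B)) ∧ Sub (MU.E U) (MU.mk U x) k ∧
      ∃ a c, App (MU.E U) (MU.mk U H) k a ∧ App (MU.E U) (MU.mk U F) k c ∧ MU.E U a c)
      (fun U k => ?_) U
  rw [UF.inf_mem_iff, UF.inf_mem_iff, los_sub]
  refine and_congr Iff.rfl (and_congr Iff.rfl ?_)
  refine card_iSup (P := fun U a => ∃ c, App (MU.E U) (MU.mk U H) (MU.mk U k) a ∧
    App (MU.E U) (MU.mk U F) (MU.mk U k) c ∧ MU.E U a c) (fun U a => ?_) U
  refine card_iSup (P := fun U c => App (MU.E U) (MU.mk U H) (MU.mk U k) (MU.mk U a) ∧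
    App (MU.E U) (MU.mk U F) (MU.mk U k) c ∧ MU.E U (MU.mk U a) c) (fun U c => ?_) U
  rw [UF.inf_mem_iff, UF.inf_mem_iff, los_app, los_app]
  exact Iff.rfl

theorem unb (h : UNB B) (U : UF B) : Unb (MU.E U) (MU.mk U (om B)) (MU.mk U (Bfn B)) := by
  constructor
  · intro m hm
    obtain ⟨F, rfl⟩ := MU.mk_surj U m
    rw [MU.E_mk] at hm
    have h1 : (⨅ z, bmem z (Bfn B) ⇨ unbl_fn z) = ⊤ := by
      rw [ball _ unbl_ext_fn, Bfn]
      simp only [BSet.vl, BSet.nm, top_himp]
      change (⨅ i : ℕ → ℕ, unbl_fn (fn B i)) = ⊤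
      rw [iInf_congr unbl_fn_top, iInf_top]
    have h2 : bmem F (Bfn B) ⇨ unbl_fn F ∈ U :=
      U.mem_of_iInf (f := fun z => bmem z (Bfn B) ⇨ unbl_fn z) (by rw [h1]; exact U.top_mem) F
    exact (unbl_los_fn U F).mp (U.himp_mem_iff.mp h2 hm)
  · intro m hm
    obtain ⟨H, rfl⟩ := MU.mk_surj U m
    set b := unbl_fn H with hb
    have hbU : b ∈ U := (unbl_los_fn U H).mpr hm
    have hb1 : ∀ n, b ≤ ⨆ j, bmem (opr (nn B n) (nn B j)) H := by
      intro n
      have h1 : b ≤ bmem (nn B n) (om B) ⇨ ⨆ k, bmem k (om B) ⊓ bmem (opr (nn B n) k) H :=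
        inf_le_left.trans (iInf_le _ (nn B n))
      rw [bmem_nn_om, top_himp, om_bex (card_ext_app H (nn B n))] at h1
      exact h1
    have hb2 : ∀ (V : UF B), b ∈ V → ∀ n i j : ℕ, bmem (opr (nn B n) (nn B i)) H ∈ V →
        bmem (opr (nn B n) (nn B j)) H ∈ V → i = j := by
      intro V hV n i j hi hj
      have h1 := (unbl_los_fn V H).mp hV
      by_contra hne
      have h2 := h1.2 (MU.mk V (nn B n)) (MU.mk V (nn B i)) (MU.mk V (nn B j))
        (by rw [MU.E_mk, bmem_nn_om]; exact V.top_mem) ((los_app V _ _ _).mp hi)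
        ((los_app V _ _ _).mp hj)
      rw [MU.mk_eq_iff, beq_nn, if_neg hne] at h2
      exact V.bot_notMem h2
    obtain ⟨f, hf⟩ := h (fun t j => (bmem (opr (nn B t) (nn B j)) H ⊓ b) ⊔
      (if j = 0 then bᶜ else ⊥)) (by
        intro t
        rw [iSup_sup_eq, ← iSup_inf_eq, eq_top_iff, ← sup_compl_eq_top (x := b)]
        refine sup_le_sup (le_inf (hb1 t) le_rfl) ?_
        exact le_trans (by simp) (le_iSup _ 0)) (by
        intro t i j hij
        refine UF.eq_bot_of_forall fun V hV => ?_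
        rw [UF.inf_mem_iff, UF.sup_mem_iff, UF.sup_mem_iff] at hV
        by_cases hbV : b ∈ V
        · have hc : bᶜ ∉ V := fun hc => (V.compl_mem_iff.mp hc) hbV
          have g : ∀ i : ℕ, (if i = 0 then bᶜ else ⊥) ∉ V := by
            intro i
            split_ifs
            · exact hc
            · exact V.bot_notMem
          have h1 := hV.1.resolve_right (g i)
          have h2 := hV.2.resolve_right (g j)
          exact hij (hb2 V hbV t i j (V.inf_mem_iff.mp h1).1 (V.inf_mem_iff.mp h2).1)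
        · have g : ∀ i : ℕ, (bmem (opr (nn B t) (nn B i)) H ⊓ b ∈ V ∨
              (if i = 0 then bᶜ else ⊥) ∈ V) → i = 0 := by
            intro i hi
            rcases hi with hi | hi
            · exact absurd (V.inf_mem_iff.mp hi).2 hbV
            · by_contra h0
              rw [if_neg h0] at hi
              exact V.bot_notMem hi
          exact hij ((g i hV.1).trans (g j hV.2).symm))
    refine ⟨MU.mk U (fn B f), ?_, ?_⟩
    · rw [MU.E_mk]
      refine U.mem_of_le U.top_mem ?_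
      exact vl_le_bmem (Bfn B) f
    · intro n hn
      refine ball_ck' (f := unbl_st H (fn B f))
        (P := fun V x => ∃ k, MU.E V k (MU.mk V (om B)) ∧ Sub (MU.E V) x k ∧
          ∃ a c, App (MU.E V) (MU.mk V H) k a ∧ App (MU.E V) (MU.mk V (fn B f)) k c ∧
            MU.E V a c) (fun V x => unbl_los_st V H (fn B f) x) Ordinal.omega0 b ?_ U hbU n hn
      intro V hV β hβ
      obtain ⟨n, rfl⟩ := Ordinal.lt_omega0.mp hβ
      refine (unbl_los_st V H (fn B f) (nn B n)).mp ?_
      refine V.mem_of_le hV ?_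
      have h1 := hf n
      have h2 : b = b ⊓ (⨆ k : {k : ℕ // n ≤ k}, ⨆ j : {j : ℕ // j < f k},
          ((bmem (opr (nn B k) (nn B j)) H ⊓ b) ⊔ (if (j : ℕ) = 0 then bᶜ else ⊥))) := by
        rw [h1, inf_top_eq]
      rw [h2, inf_iSup_eq]
      refine iSup_le fun k => ?_
      rw [inf_iSup_eq]
      refine iSup_le fun j => ?_
      have h3 : b ⊓ ((bmem (opr (nn B k) (nn B j)) H ⊓ b) ⊔ (if (j : ℕ) = 0 then bᶜ else ⊥)) ≤
          bmem (opr (nn B k) (nn B j)) H := by
        rw [inf_sup_left]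
        refine sup_le (inf_le_right.trans inf_le_left) ?_
        split_ifs
        · rw [inf_compl_eq_bot]
          exact bot_le
        · rw [inf_bot_eq]
          exact bot_le
      refine h3.trans ?_
      refine le_trans ?_ (le_iSup _ (nn B k))
      rw [bmem_nn_om, top_inf_eq, sub_nn, if_pos k.2, top_inf_eq]
      refine le_trans ?_ (le_iSup _ (nn B j))
      refine le_trans ?_ (le_iSup _ (nn B (f k)))
      rw [bmem_fn, if_pos rfl, top_inf_eq, bmem_nn, if_pos j.2, inf_top_eq]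

end LD
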