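import Pool.Agent.H26.CM.MAddL
import Pool.Agent.H26.CM.UnbL

/-!
# FAM: the union of a family of meagre-additive sets

Let `XX = mk XX'`, `j = mk j'`, and let `b ∈ U` be the Boolean value of the hypotheses. For `f : ℕ → ℕ` let
`X_f z = ⨆ X, bmem X XX' ⊓ bmem (opr X (fn f)) j' ⊓ bmem z X ⊓ b`. In every ultrafilter `V` containing `b`
the class `X_f` is either the set `X` in `XX` with `j(X) = f` or empty, so it is meagre-additive; so
`b ≤ bMAddI X_f = bMA (x ↦ X_f (rn x))`. By `ADD`, `b ≤ bMA (x ↦ ⨆ f, X_f (rn x))`. Since every `X` in `XX` has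
an image in `Bfn`, `⨆ f, X_f z = b ⊓ ⨆ X, bmem X XX' ⊓ bmem z X` (`Bfn_bex`), and this is `bMAddI` of the union.
-/

set_option autoImplicit false

namespace LD

open BV

variable {B : Type} [CompleteBooleanAlgebra B]

theorem fam_bMA_bot : bMA (fun _ : ℕ → B => (⊥ : B)) = ⊤ := by
  unfold bMA
  rw [iInf_eq_top]
  intro A
  have h1 : bMeag (bAdd (fun _ : ℕ → B => (⊥ : B)) A.1) = ⊤ := by
    rw [eq_top_iff]
    unfold bMeag
    refine le_trans ?_ (le_iSup _ (⟨fun _ _ => (⊥ : B), fun _ _ _ => inf_le_right⟩ :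
      {φ : ℕ → (ℕ → B) → B // ∀ n, ExtR (φ n)}))
    refine le_inf (le_iInf fun n => ?_) (le_iInf fun x => ?_)
    · unfold bNwd
      refine le_iInf fun s => le_trans ?_ (le_iSup _ [])
      refine le_iInf fun x => ?_
      rw [bot_himp]
    · have h2 : bAdd (fun _ : ℕ → B => (⊥ : B)) A.1 x = ⊥ := by
        unfold bAdd
        simp
      rw [h2, bot_himp]
  rw [h1, himp_top]

theorem fam_empty (U : UF B) : MAdd (MU.E U) (MU.mk U (om B)) (fun _ => False) := by
  have h := maddI_eq (B := B) (X := fun _ => (⊥ : B)) (X' := fun _ _ => False)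
    (fun U _ => ⟨fun h => U.bot_notMem h, fun h => h.elim⟩)
  have h2 := los_maddI (B := B) (X := fun _ => (⊥ : B)) (X' := fun _ _ => False)
    (fun U _ => ⟨fun h => U.bot_notMem h, fun h => h.elim⟩) U
  rw [← h2, h, fam_bMA_bot]
  exact U.top_mem

/-- Boolean value of the first hypothesis -/
noncomputable def famB1 (XX : BSet B) : B :=
  ⨅ X, bmem X XX ⇨ ((⨅ x, bmem x X ⇨ bSub x (om B)) ⊓ bMAddI (fun x => bmem x X))

theorem fam_los1 (U : UF B) (XX : BSet B) : famB1 XX ∈ U ↔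
    ∀ X, MU.E U X (MU.mk U XX) → (∀ x, MU.E U x X → Sub (MU.E U) x (MU.mk U (om B))) ∧
      MAdd (MU.E U) (MU.mk U (om B)) (fun x => MU.E U x X) := by
  unfold famB1
  refine card_iInf (P := fun U X => MU.E U X (MU.mk U XX) →
    (∀ x, MU.E U x X → Sub (MU.E U) x (MU.mk U (om B))) ∧
      MAdd (MU.E U) (MU.mk U (om B)) (fun x => MU.E U x X)) (fun U X => ?_) U
  rw [UF.himp_mem_iff, UF.inf_mem_iff, MU.E_mk]
  refine imp_congr Iff.rfl (and_congr ?_ ?_)
  · refine card_iInf (P := fun U x => MU.E U x (MU.mk U X) →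
      Sub (MU.E U) x (MU.mk U (om B))) (fun U x => ?_) U
    rw [UF.himp_mem_iff, los_sub, MU.E_mk]
  · exact los_maddI (X := fun x => bmem x X) (X' := fun U x => MU.E U x (MU.mk U X))
      (fun U x => Iff.rfl) U

/-- the member of the family with index `f` -/
noncomputable def famX (XX j : BSet B) (b : B) (f : ℕ → ℕ) (z : BSet B) : B :=
  ⨆ X, bmem X XX ⊓ (bmem (opr X (fn B f)) j ⊓ (bmem z X ⊓ b))

theorem fam_losX (XX j : BSet B) (b : B) (f : ℕ → ℕ) (U : UF B) (z : BSet B) :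
    famX XX j b f z ∈ U ↔ ∃ X, MU.E U X (MU.mk U XX) ∧
      App (MU.E U) (MU.mk U j) X (MU.mk U (fn B f)) ∧ MU.E U (MU.mk U z) X ∧ b ∈ U := by
  unfold famX
  refine card_iSup (P := fun U X => MU.E U X (MU.mk U XX) ∧
      App (MU.E U) (MU.mk U j) X (MU.mk U (fn B f)) ∧ MU.E U (MU.mk U z) X ∧ b ∈ U)
      (fun U X => ?_) U
  rw [UF.inf_mem_iff, UF.inf_mem_iff, UF.inf_mem_iff, los_app, MU.E_mk, MU.E_mk]

/-- the union -/
noncomputable def famY (XX : BSet B) (b : B) (z : BSet B) : B :=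
  ⨆ X, bmem X XX ⊓ (bmem z X ⊓ b)

theorem fam_losY (XX : BSet B) (b : B) (U : UF B) (z : BSet B) :
    famY XX b z ∈ U ↔ ∃ X, MU.E U X (MU.mk U XX) ∧ MU.E U (MU.mk U z) X ∧ b ∈ U := by
  unfold famY
  refine card_iSup (P := fun U X => MU.E U X (MU.mk U XX) ∧ MU.E U (MU.mk U z) X ∧ b ∈ U)
      (fun U X => ?_) U
  rw [UF.inf_mem_iff, UF.inf_mem_iff, MU.E_mk, MU.E_mk]

theorem fam_union (XX j : BSet B) {b : B}
    (hb : b ≤ bInjOn j (fun X => bmem X XX) (fun f => bmem f (Bfn B))) (z : BSet B) :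
    (⨆ f, famX XX j b f z) = famY XX b z := by
  apply le_antisymm
  · refine iSup_le fun f => ?_
    unfold famX famY
    refine iSup_mono fun X => ?_
    exact le_inf inf_le_left (inf_le_right.trans inf_le_right)
  · unfold famY
    refine iSup_le fun X => ?_
    have h1 : b ⊓ bmem X XX ≤ ⨆ f : ℕ → ℕ, bmem (opr X (fn B f)) j := by
      rw [← Bfn_bex (F := fun y => bmem (opr X y) j) (card_ext_app j X), ← le_himp_iff]
      refine hb.trans ?_
      unfold bInjOn
      exact inf_le_left.trans (iInf_le _ X)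
    have h2 : bmem X XX ⊓ (bmem z X ⊓ b) ≤ (⨆ f : ℕ → ℕ, bmem (opr X (fn B f)) j) ⊓
        (bmem X XX ⊓ (bmem z X ⊓ b)) :=
      le_inf (le_trans (le_inf (inf_le_right.trans inf_le_right) inf_le_left) h1) le_rfl
    refine h2.trans ?_
    rw [iSup_inf_eq]
    refine iSup_mono fun f => ?_
    unfold famX
    refine le_trans ?_ (le_iSup _ X)
    refine le_inf (inf_le_right.trans inf_le_left) (le_inf inf_le_left
      (inf_le_right.trans inf_le_right))

theorem fam_each (XX j : BSet B) {b : B} (hb1 : b ≤ famB1 XX)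
    (hb : b ≤ bInjOn j (fun X => bmem X XX) (fun f => bmem f (Bfn B))) (f : ℕ → ℕ) :
    b ≤ bMA (fun x => famX XX j b f (rn x)) := by
  have e := maddI_eq (B := B) (X := famX XX j b f) (X' := fun U m =>
    ∃ X, MU.E U X (MU.mk U XX) ∧ App (MU.E U) (MU.mk U j) X (MU.mk U (fn B f)) ∧
      MU.E U m X ∧ b ∈ U) (fun U z => fam_losX XX j b f U z)
  rw [← e]
  refine UF.le_of_forall fun V hV => ?_
  rw [los_maddI (B := B) (X := famX XX j b f) (X' := fun U m =>
    ∃ X, MU.E U X (MU.mk U XX) ∧ App (MU.E U) (MU.mk U j) X (MU.mk U (fn B f)) ∧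
      MU.E U m X ∧ b ∈ U) (fun U z => fam_losX XX j b f U z) V]
  have h1 := (fam_los1 V XX).1 (V.mem_of_le hV hb1)
  have h2 := (los_injOn (X := fun X => bmem X XX) (Y := fun f => bmem f (Bfn B))
    (X' := fun U X => MU.E U X (MU.mk U XX)) (Y' := fun U f => MU.E U f (MU.mk U (Bfn B)))
    (fun U x => Iff.rfl) (fun U x => Iff.rfl) V j).1 (V.mem_of_le hV hb)
  by_cases hX : ∃ X, MU.E V X (MU.mk V XX) ∧ App (MU.E V) (MU.mk V j) X (MU.mk V (fn B f))
  · obtain ⟨X, hX1, hX2⟩ := hX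
    have h3 : (fun m => ∃ X, MU.E V X (MU.mk V XX) ∧
        App (MU.E V) (MU.mk V j) X (MU.mk V (fn B f)) ∧ MU.E V m X ∧ b ∈ V) =
        fun m => MU.E V m X := by
      funext m
      apply propext
      constructor
      · rintro ⟨X', h4, h5, h6, -⟩
        have h7 : X' = X := h2.2.2 X' X _ h4 hX1 h5 hX2
        rwa [h7] at h6
      · intro h
        exact ⟨X, hX1, hX2, h, hV⟩
    rw [h3]
    exact (h1 X hX1).2
  · have h3 : (fun m => ∃ X, MU.E V X (MU.mk V XX) ∧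
        App (MU.E V) (MU.mk V j) X (MU.mk V (fn B f)) ∧ MU.E V m X ∧ b ∈ V) =
        fun _ => False := by
      funext m
      apply propext
      constructor
      · rintro ⟨X', h4, h5, -⟩
        exact hX ⟨X', h4, h5⟩
      · intro h
        exact h.elim
    rw [h3]
    exact fam_empty V

theorem fam (h : ADD B) (U : UF B) (XX : MU U)
    (hXX : ∀ X, MU.E U X XX → (∀ x, MU.E U x X → Sub (MU.E U) x (MU.mk U (om B))) ∧
      MAdd (MU.E U) (MU.mk U (om B)) (fun x => MU.E U x X))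
    (j : MU U) (hj : InjOn (MU.E U) j (fun X => MU.E U X XX)
      (fun f => MU.E U f (MU.mk U (Bfn B)))) :
    MAdd (MU.E U) (MU.mk U (om B)) (fun x => ∃ X, MU.E U X XX ∧ MU.E U x X) := by
  obtain ⟨XX, rfl⟩ := MU.mk_surj U XX
  obtain ⟨j, rfl⟩ := MU.mk_surj U j
  set b : B := famB1 XX ⊓ bInjOn j (fun X => bmem X XX) (fun f => bmem f (Bfn B)) with hbdef
  have hb1 : b ≤ famB1 XX := inf_le_left
  have hb2 : b ≤ bInjOn j (fun X => bmem X XX) (fun f => bmem f (Bfn B)) := inf_le_right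
  have hbU : b ∈ U := by
    rw [hbdef, UF.inf_mem_iff]
    refine ⟨(fam_los1 U XX).2 hXX, ?_⟩
    exact (los_injOn (X := fun X => bmem X XX) (Y := fun f => bmem f (Bfn B))
      (X' := fun U X => MU.E U X (MU.mk U XX)) (Y' := fun U f => MU.E U f (MU.mk U (Bfn B)))
      (fun U x => Iff.rfl) (fun U x => Iff.rfl) U j).2 hj
  have hext : ∀ f : ℕ → ℕ, ExtR (fun x => famX XX j b f (rn x)) := by
    intro f x y
    have h1 : Ext (famX XX j b f) := ext_of_los (P := fun U m =>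
      ∃ X, MU.E U X (MU.mk U XX) ∧ App (MU.E U) (MU.mk U j) X (MU.mk U (fn B f)) ∧
        MU.E U m X ∧ b ∈ U) (fun U z => fam_losX XX j b f U z)
    have h2 := h1 (rn x) (rn y)
    rwa [beq_rn] at h2
  have h3 : b ≤ bMA (fun x => ⨆ f, famX XX j b f (rn x)) :=
    (le_iInf fun f => fam_each XX j hb1 hb2 f).trans (h _ hext)
  have h4 : (fun x : ℕ → B => ⨆ f, famX XX j b f (rn x)) = fun x => famY XX b (rn x) := by
    funext x
    exact fam_union XX j hb2 (rn x)
  rw [h4, ← maddI_eq (B := B) (X := famY XX b) (X' := fun U m =>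
    ∃ X, MU.E U X (MU.mk U XX) ∧ MU.E U m X ∧ b ∈ U) (fun U z => fam_losY XX b U z)] at h3
  have h5 := (los_maddI (B := B) (X := famY XX b) (X' := fun U m =>
    ∃ X, MU.E U X (MU.mk U XX) ∧ MU.E U m X ∧ b ∈ U) (fun U z => fam_losY XX b U z) U).1
      (U.mem_of_le hbU h3)
  have h6 : (fun m => ∃ X, MU.E U X (MU.mk U XX) ∧ MU.E U m X ∧ b ∈ U) =
      fun x => ∃ X, MU.E U X (MU.mk U XX) ∧ MU.E U x X := by
    funext m
    apply propext
    constructor
    · rintro ⟨X, h7, h8, -⟩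
      exact ⟨X, h7, h8⟩
    · rintro ⟨X, h7, h8⟩
      exact ⟨X, h7, h8, hbU⟩
  rw [h6] at h5
  exact h5

end LD
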