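import Pool.Agent.H26.CM.Om
import Pool.Agent.H26.CM.Fam

/-!
# DICT: the dictionary theorem
-/

set_option autoImplicit false

namespace LD

open BV

variable {B : Type} [CompleteBooleanAlgebra B]

theorem dict (h1 : UNB B) (h2 : ADD B) (U : UF B) : BLtAddMA (MU.E U) :=
  ⟨MU.mk U (om B), MU.mk U (Bfn B), isOm U, unb h1 U,
    fun XX hXX ⟨j, hj⟩ => fam h2 U XX hXX j hj⟩

end LD
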