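import Pool.Agent.H26.BV.Defs

/-!
# MP_28e4c5_lc, Level D: the statement `b < add(MA)` inside a structure `(M, E)`

Reals are the subsets of `ω`; the addition modulo 2 is the symmetric difference. Meagre sets are
countable unions of nowhere dense sets; for `n ∈ ω` and `t ⊆ n` the basic open set given by `(n, t)`
is the set of all reals `z` with `z ∩ n = t`.
-/

set_option autoImplicit false

universe v

namespace LD

open BV

variable {M : Type v} (E : M → M → Prop)

/-- `x ⊆ y` -/
def Sub (x y : M) : Prop := ∀ z, E z x → E z y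

/-- `y = x ∪ {x}` -/
def IsSc (y x : M) : Prop := ∀ z, E z y ↔ E z x ∨ z = x

/-- `v` is an inductive set: it contains the empty set and it is closed under `x ↦ x ∪ {x}` -/
def IsInd (v : M) : Prop :=
  (∃ e, E e v ∧ ∀ z, ¬ E z e) ∧ ∀ x, E x v → ∃ y, E y v ∧ IsSc E y x

/-- `w = ω`: the least inductive set -/
def IsOm (w : M) : Prop := IsInd E w ∧ ∀ v, IsInd E v → Sub E w v

/-- `t = z ∩ n` -/
def IsCap (z n t : M) : Prop := ∀ u, E u t ↔ E u z ∧ E u n

/-- `c = x + a` (symmetric difference) -/
def IsXor (c x a : M) : Prop := ∀ z, E z c ↔ ¬ (E z x ↔ E z a)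

/-- the class `N` of reals is nowhere dense: every basic open set `(n, s)` contains a basic open set
`(m, t)` disjoint from `N` -/
def Nwd (w : M) (N : M → Prop) : Prop :=
  ∀ n, E n w → ∀ s, Sub E s n → ∃ m, E m w ∧ Sub E n m ∧ ∃ t, Sub E t m ∧ IsCap E t n s ∧
    ∀ z, Sub E z w → N z → ¬ IsCap E z m t

/-- the class `A` of reals is meagre: it is covered by a sequence `φ` of nowhere dense sets -/
def Meag (w : M) (A : M → Prop) : Prop :=
  ∃ φ, (∀ n, E n w → Nwd E w (fun z => App E φ n z)) ∧
    ∀ z, Sub E z w → A z → ∃ n, E n w ∧ App E φ n z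

/-- the class `X` of reals is meagre-additive: `X + A` is meagre for every meagre set `A` of reals -/
def MAdd (w : M) (X : M → Prop) : Prop :=
  ∀ A, (∀ a, E a A → Sub E a w) → Meag E w (fun a => E a A) →
    Meag E w (fun c => ∃ x a, Sub E x w ∧ X x ∧ E a A ∧ IsXor E c x a)

/-- `f` is a function from `w` to `w` -/
def IsFn (w f : M) : Prop :=
  (∀ n, E n w → ∃ k, E k w ∧ App E f n k) ∧
  ∀ n k k', E n w → App E f n k → App E f n k' → k = k'

/-- `Bf` is an unbounded family of functions from `ω` to `ω`: for every `h` there is `f` in `Bf` with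
`h(k) < f(k)` for infinitely many `k` -/
def Unb (w Bf : M) : Prop :=
  (∀ f, E f Bf → IsFn E w f) ∧
  ∀ h, IsFn E w h → ∃ f, E f Bf ∧ ∀ n, E n w → ∃ k, E k w ∧ Sub E n k ∧
    ∃ a b, App E h k a ∧ App E f k b ∧ E a b

/-- `b < add(MA)`: there is an unbounded family `Bf` such that for every family `XX` of
meagre-additive sets of reals with `|XX| ≤ |Bf|` the union of `XX` is meagre-additive -/
def BLtAddMA : Prop :=
  ∃ w Bf, IsOm E w ∧ Unb E w Bf ∧
    ∀ XX, (∀ X, E X XX → (∀ x, E x X → Sub E x w) ∧ MAdd E w (fun x => E x X)) →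
      (∃ j, InjOn E j (fun X => E X XX) (fun f => E f Bf)) →
      MAdd E w (fun x => ∃ X, E X XX ∧ E x X)

end LD
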