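import Pool.Agent.H26.CM.MeagL

/-!
# MADDL: meagre-additive classes, Los and computation

`set_all`: `≤`: all elements of `sn X` are reals; `≥`: a name `A` all of whose elements are reals (on the
piece `b`) satisfies `b ≤ beq A (sn X)` with `X x = bmem (rn x) A`, which is in `ExtR`.
`maddI_eq`: `set_all`, `meagI_eq`, `bmem_sn`; the class `c ↦ ∃ x a, ..` has at `c = rn z` the value
`bAdd (fun x => X (rn x)) A z` (for the quantifier over `x` use `real_ex`; for `a` use `bex` and the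
definition of `sn`, or real_ex; then `xor_rn` and `ExtR A`).
-/

set_option autoImplicit false

namespace LD

open BV

variable {B : Type} [CompleteBooleanAlgebra B]

/-- the name of a set of reals -/
noncomputable def sn (X : (ℕ → B) → B) : BSet B := BSet.mk (ℕ → B) (fun x => rn x) X

theorem maddl_eqR_refl (x : ℕ → B) : eqR x x = ⊤ := by
  rw [← beq_rn, beq_refl]

theorem maddl_eqR_symm (x y : ℕ → B) : eqR x y = eqR y x := by
  rw [← beq_rn, ← beq_rn, beq_symm]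

theorem bmem_sn {X : (ℕ → B) → B} (hX : ExtR X) (x : ℕ → B) : bmem (rn x) (sn X) = X x := by
  unfold sn
  rw [bmem_mk]
  apply le_antisymm
  · refine iSup_le fun y => ?_
    rw [beq_rn, maddl_eqR_symm, inf_comm]
    exact hX y x
  · refine le_trans ?_ (le_iSup _ x)
    rw [beq_rn, maddl_eqR_refl, inf_top_eq]

theorem maddl_ball {X : (ℕ → B) → B} {f : BSet B → B} (hf : Ext f) :
    (⨅ z, bmem z (sn X) ⇨ f z) = ⨅ x, X x ⇨ f (rn x) :=
  ball (sn X) hf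

theorem maddl_bex {X : (ℕ → B) → B} {f : BSet B → B} (hf : Ext f) :
    (⨆ z, bmem z (sn X) ⊓ f z) = ⨆ x, X x ⊓ f (rn x) :=
  bex (sn X) hf

theorem maddl_extR (A : BSet B) : ExtR (fun x : ℕ → B => bmem (rn x) A) := by
  intro x y
  rw [← beq_rn]
  exact bmem_congr_left _ _ _

theorem set_all {f : BSet B → B} (hf : Ext f) :
    (⨅ A, (⨅ a, bmem a A ⇨ bSub a (om B)) ⇨ f A) =
      ⨅ X : {X : (ℕ → B) → B // ExtR X}, f (sn X.1) := by
  apply le_antisymm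
  · refine le_iInf fun X => ?_
    refine (iInf_le _ (sn X.1)).trans ?_
    rw [maddl_ball (ext_sub_left (om B))]
    have h : (⨅ x, X.1 x ⇨ bSub (rn x) (om B)) = ⊤ := by
      rw [eq_top_iff]
      refine le_iInf fun x => ?_
      rw [sub_rn, himp_top]
    rw [h, top_himp]
  · refine le_iInf fun A => ?_
    rw [le_himp_iff]
    refine (inf_le_inf_right _ (iInf_le _ (⟨fun x => bmem (rn x) A, maddl_extR A⟩ :
      {X : (ℕ → B) → B // ExtR X}))).trans ?_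
    have h : (⨅ a, bmem a A ⇨ bSub a (om B)) ≤ beq (sn (fun x => bmem (rn x) A)) A := by
      rw [BV.beq_ext]
      refine le_inf ?_ ?_
      · rw [maddl_ball (ext_mem_left A)]
        refine le_iInf fun x => ?_
        rw [le_himp_iff]
        exact inf_le_right
      · refine le_iInf fun z => ?_
        rw [le_himp_iff]
        have h1 : (⨅ a, bmem a A ⇨ bSub a (om B)) ⊓ bmem z A ≤ bSub z (om B) := by
          rw [← le_himp_iff]
          exact iInf_le _ z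
        have h2 := h1.trans (le_beq_rn z)
        set x : ℕ → B := fun n => bmem (nn B n) z with hx
        have h3 : (⨅ a, bmem a A ⇨ bSub a (om B)) ⊓ bmem z A ≤
            bmem (rn x) (sn (fun x => bmem (rn x) A)) := by
          rw [bmem_sn (maddl_extR A)]
          exact (le_inf h2 inf_le_right).trans (bmem_congr_left _ _ _)
        refine (le_inf h2 h3).trans ?_
        rw [beq_symm]
        exact bmem_congr_left _ _ _
    refine (inf_le_inf_left _ h).trans ?_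
    rw [inf_comm]
    exact hf _ _

/-- Boolean value of `IsXor` -/
noncomputable def bXor (c x a : BSet B) : B :=
  ⨅ z, (bmem z c ⇨ (bmem z x ⊓ (bmem z a)ᶜ) ⊔ ((bmem z x)ᶜ ⊓ bmem z a)) ⊓
    ((bmem z x ⊓ (bmem z a)ᶜ) ⊔ ((bmem z x)ᶜ ⊓ bmem z a) ⇨ bmem z c)

theorem maddl_los1 (U : UF B) (c x a z : BSet B) :
    (bmem z c ⇨ (bmem z x ⊓ (bmem z a)ᶜ) ⊔ ((bmem z x)ᶜ ⊓ bmem z a)) ⊓
      ((bmem z x ⊓ (bmem z a)ᶜ) ⊔ ((bmem z x)ᶜ ⊓ bmem z a) ⇨ bmem z c) ∈ U ↔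
    (MU.E U (MU.mk U z) (MU.mk U c) ↔
      ¬ (MU.E U (MU.mk U z) (MU.mk U x) ↔ MU.E U (MU.mk U z) (MU.mk U a))) := by
  rw [UF.inf_mem_iff, UF.himp_mem_iff, UF.himp_mem_iff, UF.sup_mem_iff, UF.inf_mem_iff,
    UF.inf_mem_iff, UF.compl_mem_iff, UF.compl_mem_iff, MU.E_mk, MU.E_mk, MU.E_mk]
  tauto

theorem los_xor (U : UF B) (c x a : BSet B) :
    bXor c x a ∈ U ↔ IsXor (MU.E U) (MU.mk U c) (MU.mk U x) (MU.mk U a) := by
  unfold bXor IsXor
  exact card_iInf (P := fun U z => (MU.E U z (MU.mk U c) ↔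
      ¬ (MU.E U z (MU.mk U x) ↔ MU.E U z (MU.mk U a))))
    (fun U z => maddl_los1 U c x a z) U

theorem xor_rn (c x a : ℕ → B) : bXor (rn c) (rn x) (rn a) = eqR a (xorR x c) := by
  have hext : Ext (fun z : BSet B =>
      (bmem z (rn c) ⇨ (bmem z (rn x) ⊓ (bmem z (rn a))ᶜ) ⊔ ((bmem z (rn x))ᶜ ⊓ bmem z (rn a))) ⊓
      ((bmem z (rn x) ⊓ (bmem z (rn a))ᶜ) ⊔ ((bmem z (rn x))ᶜ ⊓ bmem z (rn a)) ⇨ bmem z (rn c))) :=
    ext_of_los (P := fun U z => (MU.E U z (MU.mk U (rn c)) ↔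
      ¬ (MU.E U z (MU.mk U (rn x)) ↔ MU.E U z (MU.mk U (rn a)))))
      (fun U z => maddl_los1 U (rn c) (rn x) (rn a) z)
  have hom : ∀ (y : ℕ → B) (z : BSet B), bmem z (rn y) ≤ bmem z (om B) := by
    intro y z
    have h : (⊤ : B) ≤ bmem z (rn y) ⇨ bmem z (om B) := by
      rw [← sub_rn y]
      exact iInf_le _ z
    rw [le_himp_iff, top_inf_eq] at h
    exact h
  have h1 : bXor (rn c) (rn x) (rn a) = ⨅ z, bmem z (om B) ⇨
      (bmem z (rn c) ⇨ (bmem z (rn x) ⊓ (bmem z (rn a))ᶜ) ⊔ ((bmem z (rn x))ᶜ ⊓ bmem z (rn a))) ⊓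
      ((bmem z (rn x) ⊓ (bmem z (rn a))ᶜ) ⊔ ((bmem z (rn x))ᶜ ⊓ bmem z (rn a)) ⇨ bmem z (rn c)) := by
    unfold bXor
    refine iInf_congr fun z => ?_
    apply UF.eq_of_forall
    intro U
    have ec : bmem z (rn c) ∈ U → bmem z (om B) ∈ U := fun h => U.mem_of_le h (hom c z)
    have ex : bmem z (rn x) ∈ U → bmem z (om B) ∈ U := fun h => U.mem_of_le h (hom x z)
    have ea : bmem z (rn a) ∈ U → bmem z (om B) ∈ U := fun h => U.mem_of_le h (hom a z)
    rw [UF.himp_mem_iff, UF.inf_mem_iff, UF.himp_mem_iff, UF.himp_mem_iff, UF.sup_mem_iff,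
      UF.inf_mem_iff, UF.inf_mem_iff, UF.compl_mem_iff, UF.compl_mem_iff]
    tauto
  rw [h1, om_ball hext]
  unfold eqR xorR
  refine iInf_congr fun n => ?_
  rw [bmem_rn, bmem_rn, bmem_rn]
  apply UF.eq_of_forall
  intro U
  simp only [UF.himp_mem_iff, UF.inf_mem_iff, UF.sup_mem_iff, UF.compl_mem_iff]
  tauto

/-- Boolean value of `MAdd` -/
noncomputable def bMAddI (X : BSet B → B) : B :=
  ⨅ A, (⨅ a, bmem a A ⇨ bSub a (om B)) ⇨ (bMeagI (fun a => bmem a A) ⇨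
    bMeagI (fun c => ⨆ x, ⨆ a, bSub x (om B) ⊓ (X x ⊓ (bmem a A ⊓ bXor c x a))))

theorem maddl_los2 {X : BSet B → B} {X' : ∀ U : UF B, MU U → Prop}
    (hX : ∀ (U : UF B) (x : BSet B), X x ∈ U ↔ X' U (MU.mk U x)) (U : UF B) (A c : BSet B) :
    (⨆ x, ⨆ a, bSub x (om B) ⊓ (X x ⊓ (bmem a A ⊓ bXor c x a))) ∈ U ↔
      ∃ x a, Sub (MU.E U) x (MU.mk U (om B)) ∧ X' U x ∧ MU.E U a (MU.mk U A) ∧
        IsXor (MU.E U) (MU.mk U c) x a := by
  refine card_iSup (P := fun U x => ∃ a, Sub (MU.E U) x (MU.mk U (om B)) ∧ X' U x ∧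
    MU.E U a (MU.mk U A) ∧ IsXor (MU.E U) (MU.mk U c) x a) (fun U x => ?_) U
  refine card_iSup (P := fun U a => Sub (MU.E U) (MU.mk U x) (MU.mk U (om B)) ∧ X' U (MU.mk U x) ∧
    MU.E U a (MU.mk U A) ∧ IsXor (MU.E U) (MU.mk U c) (MU.mk U x) a) (fun U a => ?_) U
  rw [UF.inf_mem_iff, UF.inf_mem_iff, UF.inf_mem_iff, los_sub, hX, los_xor, MU.E_mk]

theorem maddl_los3 {X : BSet B → B} {X' : ∀ U : UF B, MU U → Prop}
    (hX : ∀ (U : UF B) (x : BSet B), X x ∈ U ↔ X' U (MU.mk U x)) (U : UF B) (A : BSet B) :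
    (bMeagI (fun a => bmem a A) ⇨
      bMeagI (fun c => ⨆ x, ⨆ a, bSub x (om B) ⊓ (X x ⊓ (bmem a A ⊓ bXor c x a)))) ∈ U ↔
      (Meag (MU.E U) (MU.mk U (om B)) (fun a => MU.E U a (MU.mk U A)) →
        Meag (MU.E U) (MU.mk U (om B)) (fun c => ∃ x a, Sub (MU.E U) x (MU.mk U (om B)) ∧
          X' U x ∧ MU.E U a (MU.mk U A) ∧ IsXor (MU.E U) c x a)) := by
  rw [UF.himp_mem_iff]
  refine imp_congr ?_ ?_
  · exact los_meagI (A' := fun U a => MU.E U a (MU.mk U A)) (fun U a => Iff.rfl) U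
  · exact los_meagI (A' := fun U c => ∃ x a, Sub (MU.E U) x (MU.mk U (om B)) ∧
      X' U x ∧ MU.E U a (MU.mk U A) ∧ IsXor (MU.E U) c x a)
      (fun U c => maddl_los2 hX U A c) U

theorem los_maddI {X : BSet B → B} {X' : ∀ U : UF B, MU U → Prop}
    (hX : ∀ (U : UF B) (x : BSet B), X x ∈ U ↔ X' U (MU.mk U x)) (U : UF B) :
    bMAddI X ∈ U ↔ MAdd (MU.E U) (MU.mk U (om B)) (X' U) := by
  unfold bMAddI MAdd
  refine card_iInf (P := fun U A => (∀ a, MU.E U a A → Sub (MU.E U) a (MU.mk U (om B))) →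
    Meag (MU.E U) (MU.mk U (om B)) (fun a => MU.E U a A) →
    Meag (MU.E U) (MU.mk U (om B)) (fun c => ∃ x a, Sub (MU.E U) x (MU.mk U (om B)) ∧
          X' U x ∧ MU.E U a A ∧ IsXor (MU.E U) c x a)) (fun U A => ?_) U
  rw [UF.himp_mem_iff, maddl_los3 hX]
  refine imp_congr ?_ Iff.rfl
  refine card_iInf (P := fun U a => MU.E U a (MU.mk U A) →
    Sub (MU.E U) a (MU.mk U (om B))) (fun U a => ?_) U
  rw [UF.himp_mem_iff, los_sub, MU.E_mk]

theorem maddI_eq {X : BSet B → B} {X' : ∀ U : UF B, MU U → Prop}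
    (hX : ∀ (U : UF B) (x : BSet B), X x ∈ U ↔ X' U (MU.mk U x)) :
    bMAddI X = bMA (fun x => X (rn x)) := by
  have hext : Ext (fun A : BSet B => bMeagI (fun a => bmem a A) ⇨
      bMeagI (fun c => ⨆ x, ⨆ a, bSub x (om B) ⊓ (X x ⊓ (bmem a A ⊓ bXor c x a)))) :=
    ext_of_los (P := fun U A => (Meag (MU.E U) (MU.mk U (om B)) (fun a => MU.E U a A) →
        Meag (MU.E U) (MU.mk U (om B)) (fun c => ∃ x a, Sub (MU.E U) x (MU.mk U (om B)) ∧
          X' U x ∧ MU.E U a A ∧ IsXor (MU.E U) c x a))) (fun U A => maddl_los3 hX U A)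
  unfold bMAddI bMA
  rw [set_all hext]
  refine iInf_congr fun A => ?_
  have e1 : bMeagI (fun a => bmem a (sn A.1)) = bMeag A.1 := by
    rw [meagI_eq (A' := fun U a => MU.E U a (MU.mk U (sn A.1))) (fun U a => Iff.rfl)]
    congr 1
    funext x
    exact bmem_sn A.2 x
  have e2 : bMeagI (fun c => ⨆ x, ⨆ a, bSub x (om B) ⊓ (X x ⊓ (bmem a (sn A.1) ⊓ bXor c x a))) =
      bMeag (bAdd (fun x => X (rn x)) A.1) := by
    rw [meagI_eq (A' := fun U c => ∃ x a, Sub (MU.E U) x (MU.mk U (om B)) ∧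
      X' U x ∧ MU.E U a (MU.mk U (sn A.1)) ∧ IsXor (MU.E U) c x a)
      (fun U c => maddl_los2 hX U (sn A.1) c)]
    congr 1
    funext z
    unfold bAdd
    have g1 : (⨆ x, ⨆ a, bSub x (om B) ⊓ (X x ⊓ (bmem a (sn A.1) ⊓ bXor (rn z) x a))) =
        ⨆ x, bSub x (om B) ⊓ (⨆ a, X x ⊓ (bmem a (sn A.1) ⊓ bXor (rn z) x a)) := by
      refine iSup_congr fun x => ?_
      rw [inf_iSup_eq]
    have hg : Ext (fun x : BSet B => ⨆ a, X x ⊓ (bmem a (sn A.1) ⊓ bXor (rn z) x a)) := by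
      refine ext_of_los (P := fun U x => ∃ a, X' U x ∧ MU.E U a (MU.mk U (sn A.1)) ∧
        IsXor (MU.E U) (MU.mk U (rn z)) x a) (fun U x => ?_)
      refine card_iSup (P := fun U a => X' U (MU.mk U x) ∧ MU.E U a (MU.mk U (sn A.1)) ∧
        IsXor (MU.E U) (MU.mk U (rn z)) (MU.mk U x) a) (fun U a => ?_) U
      rw [UF.inf_mem_iff, UF.inf_mem_iff, hX, los_xor, MU.E_mk]
    rw [g1, real_ex hg]
    refine iSup_congr fun x => ?_
    rw [← inf_iSup_eq]
    congr 1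
    have hh : Ext (fun a : BSet B => bXor (rn z) (rn x) a) :=
      ext_of_los (P := fun U a => IsXor (MU.E U) (MU.mk U (rn z)) (MU.mk U (rn x)) a)
        (fun U a => los_xor U (rn z) (rn x) a)
    rw [maddl_bex hh]
    apply le_antisymm
    · refine iSup_le fun y => ?_
      rw [xor_rn, inf_comm]
      exact A.2 y (xorR x z)
    · refine le_trans ?_ (le_iSup _ (xorR x z))
      rw [xor_rn, maddl_eqR_refl, inf_top_eq]
  rw [e1, e2]

end LD
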