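import Pool.Agent.H26.CM.NwdL

/-!
# MEAGL: meagre classes, Los and computation

`los_meagI`: `card_iSup`, `card_iInf`, `los_nwdI`, `los_app`.
`meagI_eq`: by `om_ball` and `nwdI_eq` the value for the name `φ` is
`(⨅ n, bNwd (φ_n)) ⊓ ⨅ x, A (rn x) ⇨ ⨆ n, φ_n x` with `φ_n x = bmem (opr (nn n) (rn x)) φ`, which is in `ExtR`
(`beq_rn`, `beq_opr`, `bmem_congr_left`). Conversely a sequence `φ_n` in `ExtR` comes from the name `seqn φ`.
-/

set_option autoImplicit false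

namespace LD

open BV

variable {B : Type} [CompleteBooleanAlgebra B]

/-- the name of a sequence of sets of reals -/
noncomputable def seqn (φ : ℕ → (ℕ → B) → B) : BSet B :=
  BSet.mk (ℕ × (ℕ → B)) (fun p => opr (nn B p.1) (rn p.2)) (fun p => φ p.1 p.2)

theorem meagL_eqR_symm (x y : ℕ → B) : eqR x y = eqR y x := by
  unfold eqR
  exact iInf_congr fun n => inf_comm _ _

theorem meagL_eqR_refl (x : ℕ → B) : eqR x x = ⊤ := by
  unfold eqR
  simp

theorem bmem_seqn {φ : ℕ → (ℕ → B) → B} (hφ : ∀ n, ExtR (φ n)) (n : ℕ) (x : ℕ → B) :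
    bmem (opr (nn B n) (rn x)) (seqn φ) = φ n x := by
  unfold seqn
  rw [bmem_mk]
  simp only [beq_opr, beq_nn, beq_rn]
  apply le_antisymm
  · refine iSup_le fun p => ?_
    by_cases h : n = p.1
    · rw [if_pos h, top_inf_eq, meagL_eqR_symm, inf_comm, h]
      exact hφ p.1 p.2 x
    · rw [if_neg h, bot_inf_eq, inf_bot_eq]
      exact bot_le
  · refine le_iSup_of_le (n, x) ?_
    simp only [if_true, top_inf_eq, meagL_eqR_refl, inf_top_eq]
    exact le_rfl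

/-- Boolean value of `Meag` -/
noncomputable def bMeagI (A : BSet B → B) : B :=
  ⨆ φ, (⨅ n, bmem n (om B) ⇨ bNwdI (fun z => bmem (opr n z) φ)) ⊓
    ⨅ z, bSub z (om B) ⇨ (A z ⇨ ⨆ n, bmem n (om B) ⊓ bmem (opr n z) φ)

theorem meagL_los_nwd (U : UF B) (φ n : BSet B) :
    bNwdI (fun z => bmem (opr n z) φ) ∈ U ↔
      Nwd (MU.E U) (MU.mk U (om B)) (fun z => App (MU.E U) (MU.mk U φ) (MU.mk U n) z) :=
  los_nwdI (N' := fun U z => App (MU.E U) (MU.mk U φ) (MU.mk U n) z)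
    (fun U z => los_app U φ n z) U

theorem meagL_los_ex (U : UF B) (φ z : BSet B) :
    (⨆ n, bmem n (om B) ⊓ bmem (opr n z) φ) ∈ U ↔
      ∃ n, MU.E U n (MU.mk U (om B)) ∧ App (MU.E U) (MU.mk U φ) n (MU.mk U z) := by
  refine card_iSup (P := fun U n => MU.E U n (MU.mk U (om B)) ∧
    App (MU.E U) (MU.mk U φ) n (MU.mk U z)) (fun U n => ?_) U
  rw [UF.inf_mem_iff, los_app]
  exact Iff.rfl

theorem los_meagI {A : BSet B → B} {A' : ∀ U : UF B, MU U → Prop}
    (hA : ∀ (U : UF B) (x : BSet B), A x ∈ U ↔ A' U (MU.mk U x)) (U : UF B) :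
    bMeagI A ∈ U ↔ Meag (MU.E U) (MU.mk U (om B)) (A' U) := by
  unfold bMeagI Meag
  refine card_iSup (P := fun U φ => (∀ n, MU.E U n (MU.mk U (om B)) →
    Nwd (MU.E U) (MU.mk U (om B)) (fun z => App (MU.E U) φ n z)) ∧
    ∀ z, Sub (MU.E U) z (MU.mk U (om B)) → A' U z →
      ∃ n, MU.E U n (MU.mk U (om B)) ∧ App (MU.E U) φ n z) (fun U φ => ?_) U
  rw [UF.inf_mem_iff]
  refine and_congr ?_ ?_
  · refine card_iInf (P := fun U n => MU.E U n (MU.mk U (om B)) →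
      Nwd (MU.E U) (MU.mk U (om B)) (fun z => App (MU.E U) (MU.mk U φ) n z)) (fun U n => ?_) U
    rw [UF.himp_mem_iff, meagL_los_nwd]
    exact Iff.rfl
  · refine card_iInf (P := fun U z => Sub (MU.E U) z (MU.mk U (om B)) → A' U z →
      ∃ n, MU.E U n (MU.mk U (om B)) ∧ App (MU.E U) (MU.mk U φ) n z) (fun U z => ?_) U
    rw [UF.himp_mem_iff, UF.himp_mem_iff, los_sub, hA U z, meagL_los_ex]

theorem meagL_term {A : BSet B → B} {A' : ∀ U : UF B, MU U → Prop}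
    (hA : ∀ (U : UF B) (x : BSet B), A x ∈ U ↔ A' U (MU.mk U x)) (φ : BSet B) :
    (⨅ n, bmem n (om B) ⇨ bNwdI (fun z => bmem (opr n z) φ)) ⊓
      (⨅ z, bSub z (om B) ⇨ (A z ⇨ ⨆ n, bmem n (om B) ⊓ bmem (opr n z) φ)) =
    (⨅ n, bNwd (fun x => bmem (opr (nn B n) (rn x)) φ)) ⊓
      ⨅ x : ℕ → B, A (rn x) ⇨ ⨆ n, bmem (opr (nn B n) (rn x)) φ := by
  have h1 : (⨅ n, bmem n (om B) ⇨ bNwdI (fun z => bmem (opr n z) φ)) =
      ⨅ n, bNwd (fun x => bmem (opr (nn B n) (rn x)) φ) := by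
    have he : Ext (fun n => bNwdI (fun z => bmem (opr n z) φ)) :=
      ext_of_los (P := fun U n => Nwd (MU.E U) (MU.mk U (om B))
        (fun z => App (MU.E U) (MU.mk U φ) n z)) (fun U n => meagL_los_nwd U φ n)
    rw [om_ball he]
    refine iInf_congr fun n => ?_
    exact nwdI_eq (N' := fun U z => App (MU.E U) (MU.mk U φ) (MU.mk U (nn B n)) z)
      (fun U z => los_app U φ (nn B n) z)
  have h2 : (⨅ z, bSub z (om B) ⇨ (A z ⇨ ⨆ n, bmem n (om B) ⊓ bmem (opr n z) φ)) =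
      ⨅ x : ℕ → B, A (rn x) ⇨ ⨆ n, bmem (opr (nn B n) (rn x)) φ := by
    have he : Ext (fun z => A z ⇨ ⨆ n, bmem n (om B) ⊓ bmem (opr n z) φ) :=
      ext_himp (ext_of_los hA) (ext_of_los (P := fun U z => ∃ n, MU.E U n (MU.mk U (om B)) ∧
        App (MU.E U) (MU.mk U φ) n z) (fun U z => meagL_los_ex U φ z))
    rw [real_all he]
    refine iInf_congr fun x => ?_
    have he2 : Ext (fun n => bmem (opr n (rn x)) φ) :=
      ext_of_los (P := fun U n => App (MU.E U) (MU.mk U φ) n (MU.mk U (rn x)))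
        (fun U n => los_app U φ n (rn x))
    rw [om_bex he2]
  rw [h1, h2]

theorem meagL_extR (φ : BSet B) (n : ℕ) : ExtR (fun x => bmem (opr (nn B n) (rn x)) φ) := by
  intro x y
  have h1 := bmem_congr_left (opr (nn B n) (rn x)) (opr (nn B n) (rn y)) φ
  rw [beq_opr, beq_refl, top_inf_eq, beq_rn] at h1
  exact h1

theorem meagI_eq {A : BSet B → B} {A' : ∀ U : UF B, MU U → Prop}
    (hA : ∀ (U : UF B) (x : BSet B), A x ∈ U ↔ A' U (MU.mk U x)) :
    bMeagI A = bMeag (fun x => A (rn x)) := by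
  unfold bMeagI bMeag
  apply le_antisymm
  · refine iSup_le fun φ => ?_
    rw [meagL_term hA φ]
    exact le_iSup_of_le ⟨fun n x => bmem (opr (nn B n) (rn x)) φ, meagL_extR φ⟩ le_rfl
  · refine iSup_le fun φ => ?_
    refine le_iSup_of_le (seqn φ.1) ?_
    rw [meagL_term hA (seqn φ.1)]
    simp only [bmem_seqn φ.2]
    exact le_rfl

end LD
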