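import Pool.Agent.H26.CM.Rn

/-!
# NODE: finite 0-1 sequences

`tn t` is the finite subset of `t.length` with characteristic function `t`.
`cap_rn`: the Boolean value of `t = x ∩ |t|` is `bPre x t`. Both sides by elements `nn k` (everything
below `ω`): for `k < |t|` the condition is `lit (x k) (t k)`, for `k ≥ |t|` it is trivial.
`node_all`: `≤` by `sub_tn`; `≥`: every name `s` with `s ⊆ n` is, on the pieces
`p_t = ⨅ k < n, lit (bmem (nn k) s) (t k)` of the finite partition `⨆_{|t| = n} p_t = ⊤`, equal to `tn t`.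
-/

set_option autoImplicit false

namespace LD

open BV

variable {B : Type} [CompleteBooleanAlgebra B]

/-- the name of a finite 0-1 sequence, as a subset of its length -/
noncomputable def tn (B : Type) [CompleteBooleanAlgebra B] (t : List Bool) : BSet B :=
  rn (fun n => if t.getD n false = true then (⊤ : B) else ⊥)

/-- Boolean value of `t = z ∩ n` -/
noncomputable def bCap (z n t : BSet B) : B :=
  ⨅ u, (bmem u t ⇨ bmem u z ⊓ bmem u n) ⊓ (bmem u z ⊓ bmem u n ⇨ bmem u t)

theorem los_cap (U : UF B) (z n t : BSet B) :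
    bCap z n t ∈ U ↔ IsCap (MU.E U) (MU.mk U z) (MU.mk U n) (MU.mk U t) := by
  have hf : Ext (fun u : BSet B =>
      (bmem u t ⇨ bmem u z ⊓ bmem u n) ⊓ (bmem u z ⊓ bmem u n ⇨ bmem u t)) :=
    ext_inf (ext_himp (ext_mem_left t) (ext_inf (ext_mem_left z) (ext_mem_left n)))
      (ext_himp (ext_inf (ext_mem_left z) (ext_mem_left n)) (ext_mem_left t))
  refine los_iInf hf U (P := fun u => MU.E U u (MU.mk U t) ↔
    MU.E U u (MU.mk U z) ∧ MU.E U u (MU.mk U n)) fun u => ?_
  rw [UF.inf_mem_iff, UF.himp_mem_iff, UF.himp_mem_iff, UF.inf_mem_iff, MU.E_mk, MU.E_mk, MU.E_mk]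
  exact ⟨fun h => ⟨h.1, h.2⟩, fun h => ⟨h.1, h.2⟩⟩

/-- the complement of `bSub z (nn n)` is above `bmem (nn k) z` for `n ≤ k` -/
theorem node_sub_le (z : BSet B) {n k : ℕ} (h : n ≤ k) :
    bSub z (nn B n) ⊓ bmem (nn B k) z = ⊥ := by
  have h1 : bSub z (nn B n) ≤ bmem (nn B k) z ⇨ bmem (nn B k) (nn B n) :=
    iInf_le (fun u => bmem u z ⇨ bmem u (nn B n)) (nn B k)
  rw [bmem_nn, if_neg (by omega), le_himp_iff] at h1
  exact le_bot_iff.mp h1

theorem node_sub_om (n : ℕ) : bSub (nn B n) (om B) = ⊤ := by
  unfold bSub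
  rw [nn, chk_ball _ (ext_mem_left (om B)), iInf_eq_top]
  rintro ⟨β, hβ⟩
  exact bmem_chk_of_lt (lt_trans hβ (Ordinal.natCast_lt_omega0 n))

theorem node_sub_trans (x y z : BSet B) : bSub x y ⊓ bSub y z ≤ bSub x z := by
  refine le_iInf fun u => ?_
  rw [le_himp_iff]
  have h1 : bSub x y ⊓ bmem u x ≤ bmem u y := by
    rw [← le_himp_iff]
    exact iInf_le (fun u => bmem u x ⇨ bmem u y) u
  have h2 : bSub y z ⊓ bmem u y ≤ bmem u z := by
    rw [← le_himp_iff]
    exact iInf_le (fun u => bmem u y ⇨ bmem u z) u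
  refine le_trans (le_inf (inf_le_left.trans inf_le_right) ?_) h2
  exact le_trans (le_inf (inf_le_left.trans inf_le_left) inf_le_right) h1

theorem sub_nn (m n : ℕ) : bSub (nn B m) (nn B n) = if m ≤ n then ⊤ else ⊥ := by
  by_cases h : m ≤ n
  · rw [if_pos h]
    unfold bSub
    have hf : Ext (fun z => bmem z (nn B n)) := ext_mem_left (nn B n)
    rw [show nn B m = chk B (m : Ordinal.{0}) from rfl, chk_ball _ hf, iInf_eq_top]
    rintro ⟨β, hβ⟩
    exact bmem_chk_of_lt (lt_of_lt_of_le hβ (by exact_mod_cast h))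
  · rw [if_neg h]
    have h1 := node_sub_le (B := B) (nn B m) (le_refl n)
    rw [bmem_nn, if_pos (by omega), inf_top_eq] at h1
    exact h1

theorem sub_tn (t : List Bool) : bSub (tn B t) (nn B t.length) = ⊤ := by
  unfold bSub tn
  rw [rn_ball (ext_mem_left (nn B t.length)), iInf_eq_top]
  intro n
  rw [bmem_nn]
  by_cases h : n < t.length
  · rw [if_pos h, himp_top]
  · rw [if_neg h, List.getD_eq_default _ _ (by omega), if_neg (by simp), himp_bot, compl_bot]

theorem node_cap_aux (x : ℕ → B) (t : List Bool) (n : ℕ) :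
    ((if t.getD n false = true then (⊤ : B) else ⊥) ⇨ x n ⊓ (if n < t.length then ⊤ else ⊥)) ⊓
      (x n ⇨ ((if n < t.length then (⊤ : B) else ⊥) ⇨
        (if t.getD n false = true then (⊤ : B) else ⊥))) =
      if n < t.length then lit (x n) (t.getD n false) else ⊤ := by
  by_cases h : n < t.length
  · simp only [if_pos h, inf_top_eq, top_himp]
    cases t.getD n false with
    | true => simp [lit]
    | false => simp [lit]
  · rw [List.getD_eq_default _ _ (by omega)]
    simp [h]

theorem node_pre (x : ℕ → B) (t : List Bool) :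
    bPre x t = ⨅ n, if n < t.length then lit (x n) (t.getD n false) else ⊤ := by
  unfold bPre
  apply le_antisymm
  · refine le_iInf fun n => ?_
    by_cases h : n < t.length
    · rw [if_pos h]
      refine (iInf_le _ ⟨n, h⟩).trans (le_of_eq ?_)
      rw [List.getD_eq_getElem _ _ h]
      rfl
    · rw [if_neg h]
      exact le_top
  · refine le_iInf fun n => ?_
    refine (iInf_le _ (n : ℕ)).trans (le_of_eq ?_)
    rw [if_pos n.2, List.getD_eq_getElem _ _ n.2]
    rfl

theorem cap_rn (x : ℕ → B) (t : List Bool) :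
    bCap (rn x) (nn B t.length) (tn B t) = bPre x t := by
  unfold bCap tn
  rw [iInf_inf_eq]
  have h1 : ∀ u : BSet B, (bmem u (rn x) ⊓ bmem u (nn B t.length) ⇨
      bmem u (rn (fun n => if t.getD n false = true then (⊤ : B) else ⊥))) =
      (bmem u (rn x) ⇨ (bmem u (nn B t.length) ⇨
        bmem u (rn (fun n => if t.getD n false = true then (⊤ : B) else ⊥)))) := by
    intro u
    rw [himp_himp]
  simp only [h1]
  rw [rn_ball (ext_inf (ext_mem_left (rn x)) (ext_mem_left (nn B t.length))),
    rn_ball (ext_himp (ext_mem_left (nn B t.length)) (ext_mem_left _)), ← iInf_inf_eq, node_pre]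
  refine iInf_congr fun n => ?_
  rw [bmem_rn, bmem_rn, bmem_nn]
  exact node_cap_aux x t n

theorem node_lit (b v : Bool) :
    lit (if b = true then (⊤ : B) else ⊥) v = if b = v then ⊤ else ⊥ := by
  cases b <;> cases v <;> simp [lit]

theorem cap_tn (t s : List Bool) (h : s.length ≤ t.length) :
    bCap (tn B t) (nn B s.length) (tn B s) = if t.take s.length = s then ⊤ else ⊥ := by
  have h1 : bCap (tn B t) (nn B s.length) (tn B s) =
      bPre (fun n => if t.getD n false = true then (⊤ : B) else ⊥) s := cap_rn _ s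
  rw [h1, node_pre]
  simp only [node_lit]
  by_cases hs : t.take s.length = s
  · rw [if_pos hs, iInf_eq_top]
    intro n
    by_cases hn : n < s.length
    · rw [if_pos hn, if_pos]
      have hn' : n < t.length := by omega
      rw [List.getD_eq_getElem _ _ hn, List.getD_eq_getElem _ _ hn']
      have h2 : n < (t.take s.length).length := by rw [List.length_take]; omega
      have h3 : (t.take s.length)[n] = t[n] := List.getElem_take
      rw [← h3]
      congr 1
    · rw [if_neg hn]
  · rw [if_neg hs, eq_bot_iff]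
    have h2 : ∃ n, ∃ hn : n < s.length, t.getD n false ≠ s.getD n false := by
      by_contra hc
      push Not at hc
      apply hs
      apply List.ext_getElem
      · rw [List.length_take]; omega
      · intro i hi1 hi2
        have h3 := hc i hi2
        rw [List.getD_eq_getElem _ _ hi2, List.getD_eq_getElem _ _ (by omega)] at h3
        rw [List.getElem_take]
        exact h3
    obtain ⟨n, hn, hne⟩ := h2
    refine (iInf_le _ n).trans ?_
    rw [if_pos hn, if_neg hne]

/-- finite infima and ultrafilters -/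
theorem node_inf_mem (U : UF B) (n : ℕ) (f : Fin n → B) (h : ∀ i, f i ∈ U) : (⨅ i, f i) ∈ U := by
  by_contra hc
  rw [← U.compl_mem_iff, compl_iInf] at hc
  have h1 : (⨆ i ∈ (Finset.univ : Finset (Fin n)), (f i)ᶜ) ∈ U := by
    simpa using hc
  obtain ⟨i, -, hi⟩ := U.exists_of_biSup_mem Finset.univ h1
  exact U.compl_mem_iff.mp hi (h i)

/-- every subset of `n` is, in every quotient, one of the names `tn t` -/
theorem node_exists (U : UF B) (n : ℕ) (s : BSet B) (h : bSub s (nn B n) ∈ U) :
    ∃ t : List Bool, t.length = n ∧ beq s (tn B t) ∈ U := by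
  classical
  set t : List Bool := List.ofFn (fun k : Fin n => decide (bmem (nn B k) s ∈ U)) with ht
  have hlen : t.length = n := by rw [ht, List.length_ofFn]
  refine ⟨t, hlen, ?_⟩
  set x : ℕ → B := fun k => bmem (nn B k) s with hx
  -- `s` is the name of a real
  have h1 : beq s (rn x) ∈ U := by
    refine U.mem_of_le h ?_
    refine le_trans ?_ (le_beq_rn s)
    refine le_trans (le_inf le_rfl ?_) (node_sub_trans s (nn B n) (om B))
    rw [node_sub_om]
    exact le_top
  -- the finite part
  have h2 : (⨅ k : Fin n, lit (x k) (t.getD k false)) ∈ U := by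
    refine node_inf_mem U n _ fun k => ?_
    have h3 : t.getD k false = decide (bmem (nn B k) s ∈ U) := by
      rw [List.getD_eq_getElem _ _ (by rw [hlen]; exact k.2)]
      simp [ht]
    rw [h3]
    by_cases hk : bmem (nn B k) s ∈ U
    · rw [decide_eq_true hk]
      exact hk
    · rw [decide_eq_false hk]
      exact U.compl_mem_iff.mpr hk
  -- comparison of the two reals
  have h4 : bSub s (nn B n) ⊓ (⨅ k : Fin n, lit (x k) (t.getD k false)) ≤
      beq (rn x) (tn B t) := by
    unfold tn
    rw [beq_rn]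
    refine le_iInf fun k => ?_
    show _ ≤ (x k ⇨ if t.getD k false = true then (⊤ : B) else ⊥) ⊓
      ((if t.getD k false = true then (⊤ : B) else ⊥) ⇨ x k)
    by_cases hk : k < n
    · refine inf_le_right.trans ((iInf_le _ ⟨k, hk⟩).trans ?_)
      show lit (x k) (t.getD k false) ≤ _
      cases t.getD k false with
      | true => simp [lit]
      | false => simp [lit]
    · rw [List.getD_eq_default _ _ (by omega), if_neg (by simp), himp_bot, bot_himp, inf_top_eq]
      refine inf_le_left.trans ?_
      rw [le_compl_iff_disjoint_right, disjoint_iff]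
      exact node_sub_le s (not_lt.mp hk)
  have h5 : beq (rn x) (tn B t) ∈ U := U.mem_of_le (U.inf_mem h h2) h4
  exact U.mem_of_le (U.inf_mem h1 h5) (beq_trans s (rn x) (tn B t))

theorem node_all {f : BSet B → B} (hf : Ext f) (n : ℕ) :
    (⨅ s, bSub s (nn B n) ⇨ f s) = ⨅ s : {s : List Bool // s.length = n}, f (tn B s.1) := by
  apply le_antisymm
  · refine le_iInf fun s => ?_
    refine (iInf_le _ (tn B s.1)).trans ?_
    obtain ⟨s, rfl⟩ := s
    rw [sub_tn, top_himp]
  · refine le_iInf fun s => ?_
    rw [le_himp_iff]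
    refine UF.le_of_forall fun U hU => ?_
    rw [UF.inf_mem_iff] at hU
    obtain ⟨t, ht, hst⟩ := node_exists U n s hU.2
    have h1 : f (tn B t) ∈ U := U.mem_of_iInf hU.1 (⟨t, ht⟩ : {s : List Bool // s.length = n})
    rw [beq_symm] at hst
    exact U.mem_of_le (U.inf_mem hst h1) (hf _ _)

theorem node_ex {f : BSet B → B} (hf : Ext f) (n : ℕ) :
    (⨆ s, bSub s (nn B n) ⊓ f s) = ⨆ s : {s : List Bool // s.length = n}, f (tn B s.1) := by
  apply le_antisymm
  · refine iSup_le fun s => ?_
    refine UF.le_of_forall fun U hU => ?_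
    rw [UF.inf_mem_iff] at hU
    obtain ⟨t, ht, hst⟩ := node_exists U n s hU.1
    have h1 : f (tn B t) ∈ U := U.mem_of_le (U.inf_mem hst hU.2) (hf _ _)
    exact U.iSup_mem_of_mem (i := (⟨t, ht⟩ : {s : List Bool // s.length = n})) h1
  · refine iSup_le fun s => ?_
    refine le_trans ?_ (le_iSup _ (tn B s.1))
    obtain ⟨s, rfl⟩ := s
    rw [sub_tn, top_inf_eq]

end LD
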