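import Pool.Agent.H26.CM.Node
import Pool.Agent.H26.BV.Card

/-!
# NWDL: nowhere dense classes, Los and computation

`los_nwdI`: by the rules `card_iInf`, `card_iSup` of `Card.lean` (see `LosD.lean` for examples).
`nwdI_eq`: rewrite the quantifiers with `om_ball`, `node_all`, `om_bex`, `node_ex`, `real_all`
(extensionality of the bodies follows from `ext_of_los` or the `ext_*` lemmas); then
`n = s.length`, `m = t.length`, `sub_nn`, `cap_tn`, `cap_rn`; `t = s ++ t'`.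
-/

set_option autoImplicit false

namespace LD

open BV

variable {B : Type} [CompleteBooleanAlgebra B]

/-- Boolean value of `Nwd` -/
noncomputable def bNwdI (N : BSet B → B) : B :=
  ⨅ n, bmem n (om B) ⇨ ⨅ s, bSub s n ⇨ ⨆ m, bmem m (om B) ⊓ (bSub n m ⊓ ⨆ t, bSub t m ⊓
    (bCap t n s ⊓ ⨅ z, bSub z (om B) ⇨ (N z ⇨ (bCap z m t)ᶜ)))

/-- no element of `N` in the basic set `(m, t)` -/
noncomputable def nwdlZ (N : BSet B → B) (m t : BSet B) : B :=
  ⨅ z, bSub z (om B) ⇨ (N z ⇨ (bCap z m t)ᶜ)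

noncomputable def nwdlT (N : BSet B → B) (n s m : BSet B) : B :=
  ⨆ t, bSub t m ⊓ (bCap t n s ⊓ nwdlZ N m t)

noncomputable def nwdlM (N : BSet B → B) (n s : BSet B) : B :=
  ⨆ m, bmem m (om B) ⊓ (bSub n m ⊓ nwdlT N n s m)

noncomputable def nwdlS (N : BSet B → B) (n : BSet B) : B :=
  ⨅ s, bSub s n ⇨ nwdlM N n s

theorem nwdl_unfold (N : BSet B → B) : bNwdI N = ⨅ n, bmem n (om B) ⇨ nwdlS N n := rfl

section los

variable {N : BSet B → B} {N' : ∀ U : UF B, MU U → Prop}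

theorem nwdl_los_N (hN : ∀ (U : UF B) (x : BSet B), N x ∈ U ↔ N' U (MU.mk U x)) (U : UF B)
    (m t z : BSet B) : (N z ⇨ (bCap z m t)ᶜ) ∈ U ↔
      (N' U (MU.mk U z) → ¬ IsCap (MU.E U) (MU.mk U z) (MU.mk U m) (MU.mk U t)) := by
  rw [UF.himp_mem_iff, UF.compl_mem_iff, hN, los_cap]

theorem nwdl_los_Z (hN : ∀ (U : UF B) (x : BSet B), N x ∈ U ↔ N' U (MU.mk U x)) (U : UF B)
    (m t : BSet B) : nwdlZ N m t ∈ U ↔ ∀ z, Sub (MU.E U) z (MU.mk U (om B)) → N' U z →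
      ¬ IsCap (MU.E U) z (MU.mk U m) (MU.mk U t) := by
  unfold nwdlZ
  refine card_iInf (P := fun U z => Sub (MU.E U) z (MU.mk U (om B)) → N' U z →
      ¬ IsCap (MU.E U) z (MU.mk U m) (MU.mk U t)) (fun U z => ?_) U
  rw [UF.himp_mem_iff, nwdl_los_N hN, los_sub]

theorem nwdl_los_T (hN : ∀ (U : UF B) (x : BSet B), N x ∈ U ↔ N' U (MU.mk U x)) (U : UF B)
    (n s m : BSet B) : nwdlT N n s m ∈ U ↔ ∃ t, Sub (MU.E U) t (MU.mk U m) ∧
      IsCap (MU.E U) t (MU.mk U n) (MU.mk U s) ∧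
      ∀ z, Sub (MU.E U) z (MU.mk U (om B)) → N' U z → ¬ IsCap (MU.E U) z (MU.mk U m) t := by
  unfold nwdlT
  refine card_iSup (P := fun U t => Sub (MU.E U) t (MU.mk U m) ∧
      IsCap (MU.E U) t (MU.mk U n) (MU.mk U s) ∧
      ∀ z, Sub (MU.E U) z (MU.mk U (om B)) → N' U z → ¬ IsCap (MU.E U) z (MU.mk U m) t)
      (fun U t => ?_) U
  rw [UF.inf_mem_iff, UF.inf_mem_iff, los_sub, los_cap, nwdl_los_Z hN]

theorem nwdl_los_M (hN : ∀ (U : UF B) (x : BSet B), N x ∈ U ↔ N' U (MU.mk U x)) (U : UF B)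
    (n s : BSet B) : nwdlM N n s ∈ U ↔ ∃ m, MU.E U m (MU.mk U (om B)) ∧
      Sub (MU.E U) (MU.mk U n) m ∧ ∃ t, Sub (MU.E U) t m ∧
      IsCap (MU.E U) t (MU.mk U n) (MU.mk U s) ∧
      ∀ z, Sub (MU.E U) z (MU.mk U (om B)) → N' U z → ¬ IsCap (MU.E U) z m t := by
  unfold nwdlM
  refine card_iSup (P := fun U m => MU.E U m (MU.mk U (om B)) ∧
      Sub (MU.E U) (MU.mk U n) m ∧ ∃ t, Sub (MU.E U) t m ∧
      IsCap (MU.E U) t (MU.mk U n) (MU.mk U s) ∧
      ∀ z, Sub (MU.E U) z (MU.mk U (om B)) → N' U z → ¬ IsCap (MU.E U) z m t)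
      (fun U m => ?_) U
  rw [UF.inf_mem_iff, UF.inf_mem_iff, los_sub, nwdl_los_T hN]
  exact Iff.rfl

theorem nwdl_los_S (hN : ∀ (U : UF B) (x : BSet B), N x ∈ U ↔ N' U (MU.mk U x)) (U : UF B)
    (n : BSet B) : nwdlS N n ∈ U ↔ ∀ s, Sub (MU.E U) s (MU.mk U n) →
      ∃ m, MU.E U m (MU.mk U (om B)) ∧
      Sub (MU.E U) (MU.mk U n) m ∧ ∃ t, Sub (MU.E U) t m ∧
      IsCap (MU.E U) t (MU.mk U n) s ∧
      ∀ z, Sub (MU.E U) z (MU.mk U (om B)) → N' U z → ¬ IsCap (MU.E U) z m t := by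
  unfold nwdlS
  refine card_iInf (P := fun U s => Sub (MU.E U) s (MU.mk U n) →
      ∃ m, MU.E U m (MU.mk U (om B)) ∧
      Sub (MU.E U) (MU.mk U n) m ∧ ∃ t, Sub (MU.E U) t m ∧
      IsCap (MU.E U) t (MU.mk U n) s ∧
      ∀ z, Sub (MU.E U) z (MU.mk U (om B)) → N' U z → ¬ IsCap (MU.E U) z m t)
      (fun U s => ?_) U
  rw [UF.himp_mem_iff, los_sub, nwdl_los_M hN]

end los

theorem los_nwdI {N : BSet B → B} {N' : ∀ U : UF B, MU U → Prop}
    (hN : ∀ (U : UF B) (x : BSet B), N x ∈ U ↔ N' U (MU.mk U x)) (U : UF B) :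
    bNwdI N ∈ U ↔ Nwd (MU.E U) (MU.mk U (om B)) (N' U) := by
  rw [nwdl_unfold]
  unfold Nwd
  refine card_iInf (P := fun U n => MU.E U n (MU.mk U (om B)) →
      ∀ s, Sub (MU.E U) s n → ∃ m, MU.E U m (MU.mk U (om B)) ∧
      Sub (MU.E U) n m ∧ ∃ t, Sub (MU.E U) t m ∧
      IsCap (MU.E U) t n s ∧
      ∀ z, Sub (MU.E U) z (MU.mk U (om B)) → N' U z → ¬ IsCap (MU.E U) z m t)
      (fun U n => ?_) U
  rw [UF.himp_mem_iff, nwdl_los_S hN]
  exact Iff.rfl

/-- the sets `W t` of the computation -/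
noncomputable def nwdlW (N : BSet B → B) (t : List Bool) : B :=
  ⨅ x : ℕ → B, N (rn x) ⇨ (bPre x t)ᶜ

theorem nwdl_Z_eq {N : BSet B → B} {N' : ∀ U : UF B, MU U → Prop}
    (hN : ∀ (U : UF B) (x : BSet B), N x ∈ U ↔ N' U (MU.mk U x)) (t : List Bool) :
    nwdlZ N (nn B t.length) (tn B t) = nwdlW N t := by
  unfold nwdlZ nwdlW
  rw [real_all (ext_of_los (P := fun U z => N' U z →
    ¬ IsCap (MU.E U) z (MU.mk U (nn B t.length)) (MU.mk U (tn B t)))
    (fun U z => nwdl_los_N hN U (nn B t.length) (tn B t) z))]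
  exact iInf_congr fun x => by rw [cap_rn]

theorem nwdl_T_eq {N : BSet B → B} {N' : ∀ U : UF B, MU U → Prop}
    (hN : ∀ (U : UF B) (x : BSet B), N x ∈ U ↔ N' U (MU.mk U x)) (n s : BSet B) (m : ℕ) :
    nwdlT N n s (nn B m) = ⨆ t : {t : List Bool // t.length = m},
      bCap (tn B t.1) n s ⊓ nwdlW N t.1 := by
  unfold nwdlT
  have hext : Ext (fun t => bCap t n s ⊓ nwdlZ N (nn B m) t) := by
    refine ext_of_los (P := fun U t => IsCap (MU.E U) t (MU.mk U n) (MU.mk U s) ∧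
      ∀ z, Sub (MU.E U) z (MU.mk U (om B)) → N' U z →
        ¬ IsCap (MU.E U) z (MU.mk U (nn B m)) t) (fun U t => ?_)
    rw [UF.inf_mem_iff, los_cap, nwdl_los_Z hN]
  rw [node_ex hext m]
  refine iSup_congr fun t => ?_
  obtain ⟨t, rfl⟩ := t
  rw [nwdl_Z_eq hN]

theorem nwdl_M_eq {N : BSet B → B} {N' : ∀ U : UF B, MU U → Prop}
    (hN : ∀ (U : UF B) (x : BSet B), N x ∈ U ↔ N' U (MU.mk U x)) (s : List Bool) :
    nwdlM N (nn B s.length) (tn B s) = ⨆ t : List Bool, nwdlW N (s ++ t) := by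
  unfold nwdlM
  have hext : Ext (fun m => bSub (nn B s.length) m ⊓ nwdlT N (nn B s.length) (tn B s) m) := by
    refine ext_of_los (P := fun U m => Sub (MU.E U) (MU.mk U (nn B s.length)) m ∧
      ∃ t, Sub (MU.E U) t m ∧ IsCap (MU.E U) t (MU.mk U (nn B s.length)) (MU.mk U (tn B s)) ∧
      ∀ z, Sub (MU.E U) z (MU.mk U (om B)) → N' U z → ¬ IsCap (MU.E U) z m t) (fun U m => ?_)
    rw [UF.inf_mem_iff, los_sub, nwdl_los_T hN]
  rw [om_bex hext]
  apply le_antisymm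
  · refine iSup_le fun m => ?_
    rw [sub_nn]
    split_ifs with hm
    · rw [top_inf_eq, nwdl_T_eq hN]
      refine iSup_le fun t => ?_
      obtain ⟨t, rfl⟩ := t
      rw [cap_tn t s hm]
      split_ifs with ht
      · rw [top_inf_eq]
        have h1 : t = s ++ t.drop s.length := by
          conv_lhs => rw [← List.take_append_drop s.length t, ht]
        refine le_trans (le_of_eq ?_) (le_iSup _ (t.drop s.length))
        rw [← h1]
      · rw [bot_inf_eq]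
        exact bot_le
    · rw [bot_inf_eq]
      exact bot_le
  · refine iSup_le fun t => ?_
    refine le_trans ?_ (le_iSup _ (s ++ t).length)
    have hle : s.length ≤ (s ++ t).length := by
      rw [List.length_append]
      exact Nat.le_add_right _ _
    rw [sub_nn, if_pos hle, top_inf_eq, nwdl_T_eq hN]
    refine le_trans ?_ (le_iSup _ ⟨s ++ t, rfl⟩)
    rw [cap_tn (s ++ t) s hle, if_pos List.take_left, top_inf_eq]

theorem nwdI_eq {N : BSet B → B} {N' : ∀ U : UF B, MU U → Prop}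
    (hN : ∀ (U : UF B) (x : BSet B), N x ∈ U ↔ N' U (MU.mk U x)) :
    bNwdI N = bNwd (fun x => N (rn x)) := by
  rw [nwdl_unfold, om_ball (ext_of_los (P := fun U n => ∀ s, Sub (MU.E U) s n →
      ∃ m, MU.E U m (MU.mk U (om B)) ∧ Sub (MU.E U) n m ∧ ∃ t, Sub (MU.E U) t m ∧
      IsCap (MU.E U) t n s ∧
      ∀ z, Sub (MU.E U) z (MU.mk U (om B)) → N' U z → ¬ IsCap (MU.E U) z m t)
    (fun U n => nwdl_los_S hN U n))]
  have h0 : bNwd (fun x => N (rn x)) = ⨅ s : List Bool, ⨆ t : List Bool, nwdlW N (s ++ t) := rfl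
  rw [h0]
  have h1 : ∀ n : ℕ, nwdlS N (nn B n) =
      ⨅ s : {s : List Bool // s.length = n}, nwdlM N (nn B n) (tn B s.1) := by
    intro n
    unfold nwdlS
    exact node_all (ext_of_los (P := fun U s => ∃ m, MU.E U m (MU.mk U (om B)) ∧
      Sub (MU.E U) (MU.mk U (nn B n)) m ∧ ∃ t, Sub (MU.E U) t m ∧
      IsCap (MU.E U) t (MU.mk U (nn B n)) s ∧
      ∀ z, Sub (MU.E U) z (MU.mk U (om B)) → N' U z → ¬ IsCap (MU.E U) z m t)
      (fun U s => nwdl_los_M hN U (nn B n) s)) n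
  apply le_antisymm
  · refine le_iInf fun s => ?_
    have h2 : (⨅ n : ℕ, nwdlS N (nn B n)) ≤ nwdlS N (nn B s.length) :=
      iInf_le (fun n : ℕ => nwdlS N (nn B n)) s.length
    have h3 : nwdlS N (nn B s.length) ≤ nwdlM N (nn B s.length) (tn B s) := by
      rw [h1 s.length]
      exact iInf_le (fun s' : {s' : List Bool // s'.length = s.length} =>
        nwdlM N (nn B s.length) (tn B s'.1)) ⟨s, rfl⟩
    exact (h2.trans h3).trans (le_of_eq (nwdl_M_eq hN s))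
  · refine le_iInf fun n => ?_
    rw [h1 n]
    refine le_iInf fun s => ?_
    obtain ⟨s, rfl⟩ := s
    refine le_trans ?_ (le_of_eq (nwdl_M_eq hN s).symm)
    exact iInf_le (fun s : List Bool => ⨆ t : List Bool, nwdlW N (s ++ t)) s

end LD
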