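import Pool.Agent.H26.CM.Rn

/-!
# OM: the name `om B` is `ω` in all quotients

Inductive: the empty set is `nn 0`; for `x` in `ω`: the Boolean value of
`∃ y ∈ ω, y = x ∪ {x}` is extensional in `x` (Los) and it is the top for `x = nn n` (`y = nn (n+1)`), use
`ball_ck` (note `om B = chk B ω`, `ck U α = MU.mk U (chk B α)` by definition; see `zfc_infinity` and
`zfcSucc` in `Zfc.lean`, which may be reused). Least: let `v` be inductive, `v = mk V`. The Boolean
value `b` of `v is inductive` is in `U`; by induction on `n`, `b ≤ bmem (nn n) V`; so `b ≤ bSub ω V` by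
`om_ball` (or: `ball_ck'` with this `b`).
-/

set_option autoImplicit false

namespace LD

open BV

variable {B : Type} [CompleteBooleanAlgebra B]

theorem omi_empty (U : UF B) (m : MU U) : ¬ MU.E U m (ck U 0) := by
  intro hz
  obtain ⟨z, rfl⟩ := MU.mk_surj U m
  unfold ck at hz
  rw [MU.E_mk, bmem_chk] at hz
  have h1 : (⨆ β : Set.Iio (0 : Ordinal.{0}), beq z (chk B β)) = ⊥ := by
    rw [eq_bot_iff]
    exact iSup_le fun β => absurd (Set.mem_Iio.1 β.2) (not_lt.2 zero_le)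
  rw [h1] at hz
  exact U.bot_notMem hz

theorem omi_succ (U : UF B) (β : Ordinal.{0}) (m : MU U) :
    MU.E U m (ck U (Order.succ β)) ↔ MU.E U m (ck U β) ∨ m = ck U β := by
  obtain ⟨z, rfl⟩ := MU.mk_surj U m
  unfold ck
  rw [MU.E_mk, MU.E_mk, MU.mk_eq_iff, zfc_bmem_succ, UF.sup_mem_iff]

theorem omi_isInd (U : UF B) : IsInd (MU.E U) (ck U Ordinal.omega0) := by
  refine ⟨⟨ck U 0, (E_ck U _ _).2 Ordinal.omega0_pos, omi_empty U⟩, fun x hx => ?_⟩
  refine ball_ck (f := fun x => ⨆ y, bmem y (chk B Ordinal.omega0) ⊓ ⨅ z, zfcSucc x y z)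
    (P := fun V x => ∃ y, MU.E V y (ck V Ordinal.omega0) ∧
      ∀ z, MU.E V z y ↔ MU.E V z x ∨ z = x)
    (fun V x => zfcSucc_ex (chk B Ordinal.omega0) V x) Ordinal.omega0 (fun V β hβ => ?_) U x hx
  exact ⟨ck V (Order.succ β), (E_ck V _ _).2 (Ordinal.isSuccLimit_omega0.succ_lt hβ),
    fun z => omi_succ V β z⟩

theorem omi_empty_los (W : UF B) (e : BSet B) :
    (⨅ z, (bmem z e)ᶜ) ∈ W ↔ ∀ z, ¬ MU.E W z (MU.mk W e) := by
  refine los_iInf (ext_compl (ext_mem_left e)) W (P := fun z => ¬ MU.E W z (MU.mk W e))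
    (fun z => ?_)
  rw [UF.compl_mem_iff]
  exact Iff.rfl

/-- the Boolean value of the statement that `V` is inductive -/
noncomputable def omi_ind (V : BSet B) : B :=
  (⨆ e, bmem e V ⊓ ⨅ z, (bmem z e)ᶜ) ⊓
    ⨅ x, bmem x V ⇨ ⨆ y, bmem y V ⊓ ⨅ z, zfcSucc x y z

theorem omi_los_left (V : BSet B) (W : UF B) (e : BSet B) :
    (bmem e V ⊓ ⨅ z, (bmem z e)ᶜ) ∈ W ↔
      MU.E W (MU.mk W e) (MU.mk W V) ∧ ∀ z, ¬ MU.E W z (MU.mk W e) := by
  rw [UF.inf_mem_iff, omi_empty_los]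
  exact Iff.rfl

theorem omi_los_right (V : BSet B) (W : UF B) (x : BSet B) :
    (bmem x V ⇨ ⨆ y, bmem y V ⊓ ⨅ z, zfcSucc x y z) ∈ W ↔
      (MU.E W (MU.mk W x) (MU.mk W V) → ∃ y, MU.E W y (MU.mk W V) ∧
        IsSc (MU.E W) y (MU.mk W x)) := by
  rw [UF.himp_mem_iff, zfcSucc_ex]
  exact Iff.rfl

theorem omi_los (V : BSet B) (W : UF B) :
    omi_ind V ∈ W ↔ IsInd (MU.E W) (MU.mk W V) := by
  unfold omi_ind IsInd
  rw [UF.inf_mem_iff]
  refine and_congr ?_ ?_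
  · exact los_iSup (ext_of_los (P := fun W' e => MU.E W' e (MU.mk W' V) ∧
      ∀ z, ¬ MU.E W' z e) (fun W' e => omi_los_left V W' e)) W
      (P := fun e => MU.E W e (MU.mk W V) ∧ ∀ z, ¬ MU.E W z e) (fun e => omi_los_left V W e)
  · exact los_iInf (ext_of_los (P := fun W' x => MU.E W' x (MU.mk W' V) →
      ∃ y, MU.E W' y (MU.mk W' V) ∧ IsSc (MU.E W') y x) (fun W' x => omi_los_right V W' x)) W
      (P := fun x => MU.E W x (MU.mk W V) → ∃ y, MU.E W y (MU.mk W V) ∧ IsSc (MU.E W) y x)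
      (fun x => omi_los_right V W x)

theorem omi_nat (W : UF B) (v : MU W) (hv : IsInd (MU.E W) v) (n : ℕ) :
    MU.E W (ck W (n : Ordinal.{0})) v := by
  induction n with
  | zero =>
    obtain ⟨⟨e, he, he'⟩, -⟩ := hv
    have h1 : e = ck W ((0 : ℕ) : Ordinal.{0}) := by
      rw [Nat.cast_zero]
      exact zfc_ext W e _ (fun z => iff_of_false (he' z) (omi_empty W z))
    rw [← h1]
    exact he
  | succ n ih =>
    obtain ⟨y, hy, hy'⟩ := hv.2 _ ih
    have h1 : y = ck W ((n + 1 : ℕ) : Ordinal.{0}) := by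
      have h2 : ((n + 1 : ℕ) : Ordinal.{0}) = Order.succ (n : Ordinal.{0}) := by
        rw [Nat.cast_add, Nat.cast_one, Order.succ_eq_add_one]
      rw [h2]
      exact zfc_ext W y _ (fun z => (hy' z).trans (omi_succ W _ z).symm)
    rw [← h1]
    exact hy

theorem isOm (U : UF B) : IsOm (MU.E U) (MU.mk U (om B)) := by
  refine ⟨omi_isInd U, fun v hv => ?_⟩
  obtain ⟨V, rfl⟩ := MU.mk_surj U v
  intro m hm
  refine ball_ck' (f := fun x => bmem x V) (P := fun W m => MU.E W m (MU.mk W V))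
    (fun W x => Iff.rfl) Ordinal.omega0 (omi_ind V) (fun W hW β hβ => ?_) U
    ((omi_los V U).2 hv) m hm
  obtain ⟨n, rfl⟩ := Ordinal.lt_omega0.1 hβ
  exact omi_nat W _ ((omi_los V W).1 hW) n

end LD
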