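import Pool.Agent.H26.CM.Int
import Pool.Agent.H26.CM.Algb
import Pool.Agent.H26.BV.Zfc

/-!
# RN: names of natural numbers and reals

Tools: `chk_ball`, `chk_bex`, `bmem_chk` of `Chk.lean` (`Set.Iio Ordinal.omega0` is the set of the
natural numbers: `Ordinal.lt_omega0`, `Ordinal.natCast_lt_omega0`), `bex`, `ball`, `beq_ext`, `bmem_mk`,
`beq_chk_of_ne`, `beq_refl` of `Alg.lean`/`Chk.lean`; to prove equations between elements of `B` use
`UF.eq_of_forall` / `UF.le_of_forall` (and `UF.inf_mem_iff`, `UF.himp_mem_iff`, ...) or `le_antisymm`.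
`le_beq_rn`: use `beq_ext`; for `u` in `ω` by `om_ball` it suffices to look at `u = nn n`.
`real_all`: `≤` by `sub_rn`; `≥`: `bSub z ω ≤ beq z (rn x) ` with `x n = bmem (nn n) z` and `Ext f`.
-/

set_option autoImplicit false

namespace LD

open BV

variable {B : Type} [CompleteBooleanAlgebra B]

/-- the name of a natural number -/
noncomputable def nn (B : Type) [CompleteBooleanAlgebra B] (n : ℕ) : BSet B :=
  chk B (n : Ordinal.{0})

/-- the name of `ω` -/
noncomputable def om (B : Type) [CompleteBooleanAlgebra B] : BSet B := chk B Ordinal.omega0.{0}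

/-- the name of a real -/
noncomputable def rn (x : ℕ → B) : BSet B := BSet.mk ℕ (fun n => nn B n) x

/-- Boolean value of `x ⊆ y` -/
noncomputable def bSub (x y : BSet B) : B := ⨅ z, bmem z x ⇨ bmem z y

theorem om_ball {f : BSet B → B} (hf : Ext f) :
    (⨅ z, bmem z (om B) ⇨ f z) = ⨅ n, f (nn B n) := by
  unfold om nn
  rw [chk_ball _ hf]
  apply le_antisymm
  · refine le_iInf fun n => ?_
    exact iInf_le (fun β : Set.Iio Ordinal.omega0.{0} => f (chk B β))
      ⟨(n : Ordinal.{0}), Ordinal.natCast_lt_omega0 n⟩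
  · refine le_iInf fun β => ?_
    obtain ⟨n, hn⟩ := Ordinal.lt_omega0.1 β.2
    rw [hn]
    exact iInf_le _ n

theorem om_bex {f : BSet B → B} (hf : Ext f) :
    (⨆ z, bmem z (om B) ⊓ f z) = ⨆ n, f (nn B n) := by
  unfold om nn
  rw [chk_bex _ hf]
  apply le_antisymm
  · refine iSup_le fun β => ?_
    obtain ⟨n, hn⟩ := Ordinal.lt_omega0.1 β.2
    rw [hn]
    exact le_iSup (fun n : ℕ => f (chk B (n : Ordinal.{0}))) n
  · refine iSup_le fun n => ?_
    exact le_iSup (fun β : Set.Iio Ordinal.omega0.{0} => f (chk B β))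
      ⟨(n : Ordinal.{0}), Ordinal.natCast_lt_omega0 n⟩

theorem bmem_nn (m n : ℕ) : bmem (nn B m) (nn B n) = if m < n then ⊤ else ⊥ := by
  unfold nn
  split_ifs with h
  · exact bmem_chk_of_lt (Nat.cast_lt.2 h)
  · exact bmem_chk_of_le (Nat.cast_le.2 (not_lt.1 h))

theorem beq_nn (m n : ℕ) : beq (nn B m) (nn B n) = if m = n then ⊤ else ⊥ := by
  split_ifs with h
  · rw [h, beq_refl]
  · unfold nn
    exact beq_chk_of_ne (fun h' => h (Nat.cast_injective h'))

theorem bmem_nn_om (n : ℕ) : bmem (nn B n) (om B) = ⊤ := by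
  unfold nn om
  exact bmem_chk_of_lt (Ordinal.natCast_lt_omega0 n)

theorem bmem_rn (x : ℕ → B) (n : ℕ) : bmem (nn B n) (rn x) = x n := by
  unfold rn
  rw [bmem_mk]
  apply le_antisymm
  · refine iSup_le fun i => ?_
    rw [beq_nn]
    split_ifs with h
    · rw [h, inf_top_eq]
    · rw [inf_bot_eq]; exact bot_le
  · refine le_trans ?_ (le_iSup _ n)
    rw [beq_refl, inf_top_eq]

theorem rn_bex {f : BSet B → B} (hf : Ext f) (x : ℕ → B) :
    (⨆ z, bmem z (rn x) ⊓ f z) = ⨆ n, x n ⊓ f (nn B n) := by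
  rw [bex _ hf]
  rfl

theorem rn_ball {f : BSet B → B} (hf : Ext f) (x : ℕ → B) :
    (⨅ z, bmem z (rn x) ⇨ f z) = ⨅ n, x n ⇨ f (nn B n) := by
  rw [ball _ hf]
  rfl

theorem los_sub (U : UF B) (x y : BSet B) :
    bSub x y ∈ U ↔ Sub (MU.E U) (MU.mk U x) (MU.mk U y) := by
  unfold bSub Sub
  refine los_iInf (ext_himp (ext_mem_left x) (ext_mem_left y)) U
    (P := fun z => MU.E U z (MU.mk U x) → MU.E U z (MU.mk U y)) (fun z => ?_)
  rw [UF.himp_mem_iff]
  exact Iff.rfl

theorem ext_sub_left (y : BSet B) : Ext (fun x => bSub x y) :=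
  ext_iInf fun z => ext_himp (ext_mem_right z) (ext_const _)

theorem ext_sub_right (x : BSet B) : Ext (fun y => bSub x y) :=
  ext_iInf fun z => ext_himp (ext_const _) (ext_mem_right z)

theorem sub_rn (x : ℕ → B) : bSub (rn x) (om B) = ⊤ := by
  unfold bSub
  rw [rn_ball (ext_mem_left (om B)) x]
  simp only [bmem_nn_om, himp_top, iInf_top]

theorem beq_rn (x y : ℕ → B) : beq (rn x) (rn y) = eqR x y := by
  rw [BV.beq_ext, rn_ball (ext_mem_left (rn y)) x, rn_ball (ext_mem_left (rn x)) y]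
  simp only [bmem_rn]
  unfold eqR
  rw [iInf_inf_eq]

theorem le_beq_rn (z : BSet B) : bSub z (om B) ≤ beq z (rn (fun n => bmem (nn B n) z)) := by
  have hr := rn_ball (ext_mem_left z) (fun n => bmem (nn B n) z)
  have ho := om_ball (ext_himp (ext_mem_left z) (ext_mem_left (rn (fun n => bmem (nn B n) z))))
  simp only [bmem_rn, himp_self, iInf_top] at hr ho
  rw [BV.beq_ext, hr, inf_top_eq]
  refine le_iInf fun w => ?_
  rw [le_himp_iff]
  have h1 : bSub z (om B) ⊓ bmem w z ≤ bmem w (om B) := by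
    rw [← le_himp_iff]
    exact iInf_le _ w
  have h2 : bmem w (om B) ⊓ bmem w z ≤ bmem w (rn (fun n => bmem (nn B n) z)) := by
    rw [← le_himp_iff]
    have h3 : (⊤ : B) ≤ bmem w (om B) ⇨ bmem w z ⇨ bmem w (rn (fun n => bmem (nn B n) z)) := by
      rw [← ho]
      exact iInf_le _ w
    rw [le_himp_iff, top_inf_eq] at h3
    exact h3
  exact le_trans (le_inf h1 inf_le_right) h2

theorem real_all {f : BSet B → B} (hf : Ext f) :
    (⨅ z, bSub z (om B) ⇨ f z) = ⨅ x : ℕ → B, f (rn x) := by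
  apply le_antisymm
  · refine le_iInf fun x => ?_
    refine (iInf_le _ (rn x)).trans ?_
    rw [sub_rn, top_himp]
  · refine le_iInf fun z => ?_
    rw [le_himp_iff]
    refine le_trans (inf_le_inf (iInf_le _ (fun n => bmem (nn B n) z)) (le_beq_rn z)) ?_
    rw [inf_comm, beq_symm]
    exact hf _ _

theorem real_ex {f : BSet B → B} (hf : Ext f) :
    (⨆ z, bSub z (om B) ⊓ f z) = ⨆ x : ℕ → B, f (rn x) := by
  apply le_antisymm
  · refine iSup_le fun z => ?_
    refine le_trans ?_ (le_iSup _ (fun n => bmem (nn B n) z))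
    exact le_trans (inf_le_inf_right _ (le_beq_rn z)) (hf _ _)
  · refine iSup_le fun x => ?_
    refine le_trans ?_ (le_iSup _ (rn x))
    rw [sub_rn, top_inf_eq]

theorem real_mk (U : UF B) (m : MU U) (hm : Sub (MU.E U) m (MU.mk U (om B))) :
    ∃ x : ℕ → B, m = MU.mk U (rn x) := by
  obtain ⟨z, rfl⟩ := MU.mk_surj U m
  rw [← los_sub] at hm
  refine ⟨fun n => bmem (nn B n) z, ?_⟩
  rw [MU.mk_eq_iff]
  exact U.mem_of_le hm (le_beq_rn z)

end LD
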